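import Mathlib

set_option autoImplicit false
set_option linter.unusedSectionVars false

namespace Pool.Agent.helper53.PDS

open Finset

/-- planar difference set of order n in an abelian group -/
structure Planar {G : Type*} [AddCommGroup G] [Fintype G] (n : ℕ) (D : Finset G) : Prop where
  cardG : Fintype.card G = n ^ 2 + n + 1
  cardD : D.card = n + 1
  uniq : ∀ x : G, x ≠ 0 → ∃! p : G × G, p.1 ∈ D ∧ p.2 ∈ D ∧ p.1 - p.2 = x

variable {G : Type*} [AddCommGroup G] [Fintype G] [DecidableEq G] {n : ℕ} {D : Finset G}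

lemma Planar.eq_or (h : Planar n D) {a b c d : G} (ha : a ∈ D) (hb : b ∈ D) (hc : c ∈ D)
    (hd : d ∈ D) (e : a - b = c - d) : (a = b ∧ c = d) ∨ (a = c ∧ b = d) := by
  by_cases hab : a = b
  · left
    refine ⟨hab, ?_⟩
    rw [hab, sub_self] at e
    exact (sub_eq_zero.mp e.symm)
  · right
    obtain ⟨p, _, hp⟩ := h.uniq (a - b) (sub_ne_zero.mpr hab)
    have h1 := hp (a, b) ⟨ha, hb, rfl⟩
    have h2 := hp (c, d) ⟨hc, hd, e.symm⟩
    rw [← h2] at h1
    exact ⟨(Prod.ext_iff.mp h1).1, (Prod.ext_iff.mp h1).2⟩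

lemma Planar.odd_card (h : Planar n D) : Odd (Fintype.card G) := by
  rw [h.cardG]
  have : Even (n ^ 2 + n) := by
    rw [show n ^ 2 + n = n * (n + 1) by ring]
    exact Nat.even_mul_succ_self n
  exact this.add_one

/-- the numbers coprime to the group order act injectively -/
lemma nsmul_inj_of_coprime {t : ℕ} (ht : Nat.Coprime t (Fintype.card G)) {a b : G}
    (e : t • a = t • b) : a = b := by
  have h1 : t • (a - b) = 0 := by rw [nsmul_sub, e, sub_self]
  have h2 : Fintype.card G • (a - b) = 0 := card_nsmul_eq_zero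
  have h3 : addOrderOf (a - b) ∣ Nat.gcd t (Fintype.card G) :=
    Nat.dvd_gcd (addOrderOf_dvd_of_nsmul_eq_zero h1) (addOrderOf_dvd_of_nsmul_eq_zero h2)
  rw [Nat.Coprime.gcd_eq_one ht, Nat.dvd_one, AddMonoid.addOrderOf_eq_one_iff] at h3
  exact sub_eq_zero.mp h3

lemma eq_zero_of_coprime_nsmul {t : ℕ} (ht : Nat.Coprime t (Fintype.card G)) {a : G}
    (e : t • a = 0) : a = 0 := by
  apply nsmul_inj_of_coprime ht
  rw [e, nsmul_zero]

/-- `t` fixes `D` setwise -/
def Fixes (t : ℕ) (D : Finset G) : Prop := ∀ d ∈ D, t • d ∈ D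

lemma Fixes.mul {s t : ℕ} (hs : Fixes s D) (ht : Fixes t D) : Fixes (s * t) D := by
  intro d hd
  rw [mul_nsmul']
  exact hs _ (ht _ hd)

lemma Fixes.one : Fixes 1 D := by
  intro d hd
  rwa [one_nsmul]

lemma Fixes.pow {t : ℕ} (ht : Fixes t D) (k : ℕ) : Fixes (t ^ k) D := by
  induction k with
  | zero => simpa using (Fixes.one : Fixes 1 D)
  | succ k ih => rw [pow_succ]; exact ih.mul ht

lemma Fixes.image_eq {t : ℕ} (ht : Nat.Coprime t (Fintype.card G)) (h : Fixes t D) :
    D.image (fun x => t • x) = D := by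
  apply Finset.eq_of_subset_of_card_le
  · intro x hx
    rw [Finset.mem_image] at hx
    obtain ⟨d, hd, rfl⟩ := hx
    exact h d hd
  · rw [Finset.card_image_of_injective _ (fun a b e => nsmul_inj_of_coprime ht e)]

/-- the translate of `D` -/
def trans (D : Finset G) (h : G) : Finset G := D.image (fun x => x + h)

lemma mem_trans {h x : G} : x ∈ trans D h ↔ x - h ∈ D := by
  unfold trans
  rw [Finset.mem_image]
  constructor
  · rintro ⟨d, hd, rfl⟩
    simpa using hd
  · intro hx
    exact ⟨x - h, hx, by abel⟩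

lemma card_trans (h : G) : (trans D h).card = D.card :=
  Finset.card_image_of_injective _ (fun a b e => by simpa using e)

lemma Planar.trans (hP : Planar n D) (h : G) : Planar n (trans D h) := by
  refine ⟨hP.cardG, by rw [card_trans, hP.cardD], ?_⟩
  intro x hx
  obtain ⟨p, ⟨h1, h2, h3⟩, hp⟩ := hP.uniq x hx
  refine ⟨(p.1 + h, p.2 + h), ⟨?_, ?_, ?_⟩, ?_⟩
  · rw [mem_trans]; simpa using h1
  · rw [mem_trans]; simpa using h2
  · simpa using h3
  · rintro ⟨a, b⟩ ⟨ha, hb, hab⟩
    rw [mem_trans] at ha hb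
    have := hp (a - h, b - h) ⟨ha, hb, by simpa using hab⟩
    rw [← this]
    simp

lemma sum_trans (h : G) : ∑ x ∈ trans D h, x = ∑ x ∈ D, x + D.card • h := by
  unfold PDS.trans
  rw [Finset.sum_image (fun a _ b _ e => by simpa using e), Finset.sum_add_distrib,
    Finset.sum_const]

lemma Planar.coprime_k (hP : Planar n D) : Nat.Coprime (n + 1) (Fintype.card G) := by
  rw [hP.cardG]
  have : n ^ 2 + n + 1 = n * (n + 1) + 1 := by ring
  rw [this, mul_comm]
  simp

lemma Planar.coprime_n (hP : Planar n D) : Nat.Coprime n (Fintype.card G) := by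
  rw [hP.cardG]
  have : n ^ 2 + n + 1 = n * (n + 1) + 1 := by ring
  rw [this]
  simp

/-- normalisation: a translate with zero sum -/
lemma Planar.exists_normal (hP : Planar n D) : ∃ h : G, ∑ x ∈ PDS.trans D h, x = 0 := by
  have hsurj : Function.Surjective (fun x : G => (n + 1) • x) := by
    apply Finite.surjective_of_injective
    intro a b e
    exact nsmul_inj_of_coprime hP.coprime_k e
  obtain ⟨h, hh⟩ := hsurj (-∑ x ∈ D, x)
  refine ⟨h, ?_⟩
  rw [sum_trans, hP.cardD]
  simp only at hh
  rw [hh]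
  abel

/-- for normalised `D` every multiplier fixes `D` -/
lemma Planar.fixes_of_mult (hP : Planar n D) (h0 : ∑ x ∈ D, x = 0) {t : ℕ}
    (ht : Nat.Coprime t (Fintype.card G)) {g : G}
    (hg : D.image (fun x => t • x) = PDS.trans D g) : Fixes t D := by
  have h1 : ∑ x ∈ D.image (fun x => t • x), x = 0 := by
    rw [Finset.sum_image (fun a _ b _ e => nsmul_inj_of_coprime ht e), ← Finset.smul_sum, h0,
      smul_zero]
  rw [hg, sum_trans, h0, zero_add, hP.cardD] at h1
  have hg0 : g = 0 := eq_zero_of_coprime_nsmul hP.coprime_k h1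
  intro d hd
  have : t • d ∈ D.image (fun x => t • x) := Finset.mem_image_of_mem _ hd
  rw [hg, hg0, mem_trans, sub_zero] at this
  exact this

/-- a multiplier of `D` is a multiplier of each translate -/
lemma mult_trans {t : ℕ} {g h : G} (hg : D.image (fun x => t • x) = PDS.trans D g) :
    (PDS.trans D h).image (fun x => t • x) = PDS.trans (PDS.trans D h) (g + t • h - h) := by
  ext x
  rw [mem_trans, mem_trans]
  constructor
  · intro hx
    rw [Finset.mem_image] at hx
    obtain ⟨y, hy, rfl⟩ := hx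
    rw [mem_trans] at hy
    have : t • (y - h) ∈ PDS.trans D g := by
      rw [← hg]; exact Finset.mem_image_of_mem _ hy
    rw [mem_trans] at this
    convert this using 1
    rw [nsmul_sub]
    abel
  · intro hx
    have : x - t • h ∈ PDS.trans D g := by
      rw [mem_trans]
      convert hx using 1
      abel
    rw [← hg, Finset.mem_image] at this
    obtain ⟨y, hy, hy2⟩ := this
    rw [Finset.mem_image]
    refine ⟨y + h, ?_, ?_⟩
    · rw [mem_trans]; simpa using hy
    · rw [nsmul_add, hy2]
      abel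

end Pool.Agent.helper53.PDS
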