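import Pool.Agent.helper53.PDS1

set_option autoImplicit false
set_option linter.unusedSectionVars false

namespace Pool.Agent.helper53.PDS

open Finset AddMonoidAlgebra

variable {G : Type*} [AddCommGroup G] [Fintype G] [DecidableEq G] {n : ℕ} {D : Finset G}
variable {K : Type*} [CommRing K]

lemma coeff_sum_single {ι : Type*} (s : Finset ι) (f : ι → G) (h : G) :
    (∑ i ∈ s, (single (f i) (1 : K) : AddMonoidAlgebra K G)).coeff h
      = ((s.filter (fun i => f i = h)).card : K) := by
  rw [AddMonoidAlgebra.coeff_sum, Finsupp.finsetSum_apply, Finset.card_filter, Nat.cast_sum]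
  apply Finset.sum_congr rfl
  intro i _
  rw [AddMonoidAlgebra.coeff_single, Finsupp.single_apply]
  split_ifs <;> simp

/-- group ring element of a multiple of `D` -/
noncomputable def XX (K : Type*) [CommRing K] (t : ℤ) (D : Finset G) : AddMonoidAlgebra K G :=
  ∑ d ∈ D, single (t • d) 1

/-- the all one element -/
noncomputable def JJ (K : Type*) [CommRing K] (G : Type*) [AddCommGroup G] [Fintype G] :
    AddMonoidAlgebra K G := ∑ g : G, single g 1

lemma single_mul_JJ (a : G) : (single a (1 : K) : AddMonoidAlgebra K G) * JJ K G = JJ K G := by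
  unfold JJ
  rw [Finset.mul_sum]
  simp only [single_mul_single, one_mul]
  exact Fintype.sum_equiv (Equiv.addLeft a) _ _ (fun g => rfl)

lemma XX_mul_JJ (t : ℤ) (D : Finset G) : XX K t D * JJ K G = (D.card : K) • JJ K G := by
  unfold XX
  rw [Finset.sum_mul]
  simp only [single_mul_JJ]
  rw [Finset.sum_const, Nat.cast_smul_eq_nsmul]

lemma JJ_mul_JJ : JJ K G * JJ K G = (Fintype.card G : K) • JJ K G := by
  conv_lhs => unfold JJ
  rw [Finset.sum_mul]
  have : ∀ g : G, (single g (1 : K) : AddMonoidAlgebra K G) * ∑ g : G, single g 1 = JJ K G :=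
    fun g => single_mul_JJ g
  simp only [this]
  rw [Finset.sum_const, Nat.cast_smul_eq_nsmul, Finset.card_univ]

lemma coeff_JJ (h : G) : (JJ K G).coeff h = 1 := by
  unfold JJ
  have := coeff_sum_single (K := K) (Finset.univ : Finset G) (fun g => g) h
  rw [this]
  have : (Finset.univ.filter (fun g : G => g = h)).card = 1 := by
    rw [Finset.card_eq_one]
    exact ⟨h, by ext; simp⟩
  rw [this, Nat.cast_one]

lemma XX_mul_XX (s t : ℤ) : XX K s D * XX K t D
    = ∑ p ∈ D ×ˢ D, (single (s • p.1 + t • p.2) 1 : AddMonoidAlgebra K G) := by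
  unfold XX
  rw [Finset.sum_mul_sum, Finset.sum_product]
  simp only [single_mul_single, one_mul]

/-- the difference set equation -/
lemma Planar.XY (hP : Planar n D) : XX K 1 D * XX K (-1) D = (n : K) • 1 + JJ K G := by
  ext h
  rw [XX_mul_XX, coeff_sum_single]
  rw [AddMonoidAlgebra.coeff_add, Finsupp.add_apply, coeff_JJ, AddMonoidAlgebra.coeff_smul,
    Finsupp.smul_apply, AddMonoidAlgebra.one_def, AddMonoidAlgebra.coeff_single,
    Finsupp.single_apply]
  by_cases hh : h = 0
  · subst hh
    have : ((D ×ˢ D).filter (fun p : G × G => (1:ℤ) • p.1 + (-1:ℤ) • p.2 = 0)).card = n + 1 := by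
      rw [← hP.cardD]
      refine Finset.card_bij' (fun p _ => p.1) (fun a _ => (a, a)) ?_ ?_ ?_ ?_
      · intro p hp
        simp only [Finset.mem_filter, Finset.mem_product] at hp
        exact hp.1.1
      · intro a ha
        simp [ha]
      · intro p hp
        simp only [Finset.mem_filter, Finset.mem_product] at hp
        have h2 : p.1 = p.2 := by
          have := hp.2
          simp only [one_smul, neg_smul] at this
          rw [← sub_eq_add_neg] at this
          exact sub_eq_zero.mp this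
        ext <;> simp [h2]
      · intro a _
        rfl
    rw [this]
    simp
  · obtain ⟨p, ⟨h1, h2, h3⟩, hp⟩ := hP.uniq h hh
    have : ((D ×ˢ D).filter (fun q : G × G => (1:ℤ) • q.1 + (-1:ℤ) • q.2 = h)) = {p} := by
      ext q
      simp only [Finset.mem_filter, Finset.mem_product, Finset.mem_singleton, one_smul, neg_smul,
        ← sub_eq_add_neg]
      constructor
      · rintro ⟨⟨ha, hb⟩, hc⟩
        exact hp q ⟨ha, hb, hc⟩
      · rintro rfl
        exact ⟨⟨h1, h2⟩, h3⟩
    rw [this, Finset.card_singleton, if_neg (fun e => hh e.symm)]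
    simp

/-- Frobenius in the group ring -/
lemma XX_pow_char (p : ℕ) [Fact p.Prime] [CharP K p] (t : ℤ) :
    XX K t D ^ p = XX K (p * t) D := by
  unfold XX
  have : CharP (AddMonoidAlgebra K G) p := by
    exact charP_of_injective_algebraMap
      (FaithfulSMul.algebraMap_injective K (AddMonoidAlgebra K G)) p
  rw [sum_pow_char]
  apply Finset.sum_congr rfl
  intro d _
  rw [AddMonoidAlgebra.single_pow, one_pow, mul_smul, natCast_zsmul]

/-- the counting function for `t a - b = h` -/
def cnt (t : ℕ) (D : Finset G) (h : G) : ℕ :=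
  ((D ×ˢ D).filter (fun p : G × G => t • p.1 - p.2 = h)).card

lemma sum_cnt (t : ℕ) (D : Finset G) : ∑ h : G, cnt t D h = D.card ^ 2 := by
  unfold cnt
  rw [← Finset.card_eq_sum_card_fiberwise (f := fun p : G × G => t • p.1 - p.2)
    (t := (Finset.univ : Finset G)) (s := D ×ˢ D)]
  · rw [Finset.card_product, sq]
  · intro x _
    simp

lemma Planar.sum_cnt_sq (hP : Planar n D) {t : ℕ} (ht : Nat.Coprime t (Fintype.card G)) :
    ∑ h : G, (cnt t D h) ^ 2 = (n + 1) ^ 2 + n * (n + 1) := by
  -- pairs of pairs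
  have h1 : ∑ h : G, (cnt t D h) ^ 2 = (((D ×ˢ D) ×ˢ (D ×ˢ D)).filter
      (fun q : (G × G) × (G × G) => t • q.1.1 - q.1.2 = t • q.2.1 - q.2.2)).card := by
    rw [Finset.card_eq_sum_card_fiberwise
      (f := fun q : (G × G) × (G × G) => t • q.1.1 - q.1.2) (t := (Finset.univ : Finset G))
      (fun x _ => Finset.mem_coe.mpr (Finset.mem_univ _))]
    apply Finset.sum_congr rfl
    intro h _
    unfold cnt
    rw [sq, ← Finset.card_product]
    congr 1
    ext q
    simp only [Finset.mem_product, Finset.mem_filter]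
    constructor
    · rintro ⟨⟨ha, hb⟩, ⟨hc, hd⟩⟩
      exact ⟨⟨⟨ha, hc⟩, by rw [hb, hd]⟩, hb⟩
    · rintro ⟨⟨⟨ha, hc⟩, he⟩, hb⟩
      exact ⟨⟨ha, hb⟩, ⟨hc, by rw [← he, hb]⟩⟩
  rw [h1]
  -- split according to a = c
  have h2 : (((D ×ˢ D) ×ˢ (D ×ˢ D)).filter
      (fun q : (G × G) × (G × G) => t • q.1.1 - q.1.2 = t • q.2.1 - q.2.2)).card
      = ∑ r ∈ D ×ˢ D, ((D ×ˢ D).filter (fun s : G × G => s.1 - s.2 = t • (r.1 - r.2))).card := by
    rw [Finset.card_eq_sum_card_fiberwise
      (f := fun q : (G × G) × (G × G) => (q.1.1, q.2.1)) (t := D ×ˢ D)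
      (by
        intro x hx
        simp only [Finset.coe_filter, Finset.mem_product, Set.mem_ofPred_eq] at hx
        simp only [Finset.coe_product, Set.mem_prod, Finset.mem_coe]
        exact ⟨hx.1.1.1, hx.1.2.1⟩)]
    apply Finset.sum_congr rfl
    intro r hr
    rw [Finset.mem_product] at hr
    refine Finset.card_bij' (fun q _ => (q.1.2, q.2.2)) (fun s _ => ((r.1, s.1), (r.2, s.2))) ?_ ?_ ?_ ?_
    · intro q hq
      simp only [Finset.mem_filter, Finset.mem_product] at hq ⊢
      obtain ⟨⟨⟨⟨h11, h12⟩, ⟨h21, h22⟩⟩, e⟩, hr2⟩ := hq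
      refine ⟨⟨h12, h22⟩, ?_⟩
      rw [← hr2, nsmul_sub]
      simp only
      have : q.1.2 - q.2.2 = t • q.1.1 - t • q.2.1 - ((t • q.1.1 - q.1.2) - (t • q.2.1 - q.2.2)) := by
        abel
      rw [this, e]; abel
    · intro s hs
      simp only [Finset.mem_filter, Finset.mem_product] at hs ⊢
      obtain ⟨⟨h1, h2⟩, h3⟩ := hs
      refine ⟨⟨⟨⟨hr.1, h1⟩, ⟨hr.2, h2⟩⟩, ?_⟩, trivial⟩
      have : s.1 = s.2 + (s.1 - s.2) := by abel
      rw [this, h3, nsmul_sub]
      abel
    · intro q hq
      simp only [Finset.mem_filter, Finset.mem_product] at hq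
      ext <;> simp [← hq.2]
    · intro s _
      rfl
  rw [h2]
  have h3 : ∀ r ∈ D ×ˢ D, ((D ×ˢ D).filter (fun s : G × G => s.1 - s.2 = t • (r.1 - r.2))).card
      = if r.1 = r.2 then n + 1 else 1 := by
    intro r hr
    split_ifs with hrr
    · rw [hrr, sub_self, nsmul_zero, ← hP.cardD]
      refine Finset.card_bij' (fun p _ => p.1) (fun a _ => (a, a)) ?_ ?_ ?_ ?_
      · intro p hp
        simp only [Finset.mem_filter, Finset.mem_product] at hp
        exact hp.1.1
      · intro a ha
        simp [ha]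
      · intro p hp
        simp only [Finset.mem_filter, Finset.mem_product] at hp
        have h2 : p.1 = p.2 := sub_eq_zero.mp hp.2
        ext <;> simp [h2]
      · intro a _
        rfl
    · have hne : t • (r.1 - r.2) ≠ 0 := by
        intro e
        exact hrr (sub_eq_zero.mp (eq_zero_of_coprime_nsmul ht e))
      obtain ⟨p, ⟨h1, h2, h3⟩, hp⟩ := hP.uniq _ hne
      rw [Finset.card_eq_one]
      refine ⟨p, ?_⟩
      ext q
      simp only [Finset.mem_filter, Finset.mem_product, Finset.mem_singleton]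
      constructor
      · rintro ⟨⟨ha, hb⟩, hc⟩
        exact hp q ⟨ha, hb, hc⟩
      · rintro rfl
        exact ⟨⟨h1, h2⟩, h3⟩
  rw [Finset.sum_congr rfl h3, Finset.sum_ite, Finset.sum_const, Finset.sum_const]
  have hdiag : ((D ×ˢ D).filter (fun r : G × G => r.1 = r.2)).card = n + 1 := by
    rw [← hP.cardD]
    refine Finset.card_bij' (fun p _ => p.1) (fun a _ => (a, a)) ?_ ?_ ?_ ?_
    · intro p hp
      simp only [Finset.mem_filter, Finset.mem_product] at hp
      exact hp.1.1
    · intro a ha
      simp [ha]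
    · intro p hp
      simp only [Finset.mem_filter, Finset.mem_product] at hp
      ext <;> simp [hp.2]
    · intro a _
      rfl
  have htot : ((D ×ˢ D).filter (fun r : G × G => r.1 = r.2)).card
      + ((D ×ˢ D).filter (fun r : G × G => ¬ r.1 = r.2)).card = (n + 1) ^ 2 := by
    rw [Finset.card_filter_add_card_filter_not, Finset.card_product, hP.cardD, sq]
  rw [hdiag] at htot ⊢
  simp only [smul_eq_mul, mul_one]
  nlinarith

end Pool.Agent.helper53.PDS
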