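import Pool.Agent.helper53.PDS2

set_option autoImplicit false
set_option linter.unusedSectionVars false

namespace Pool.Agent.helper53.PDS

open Finset AddMonoidAlgebra

variable {G : Type*} [AddCommGroup G] [Fintype G] [DecidableEq G] {n : ℕ} {D : Finset G}

lemma coeff_XX_mul_XX_neg {K : Type*} [CommRing K] (t : ℕ) (h : G) :
    (XX K (t : ℤ) D * XX K (-1) D).coeff h = (cnt t D h : K) := by
  rw [XX_mul_XX, coeff_sum_single]
  unfold cnt
  congr 2
  ext p
  simp only [Finset.mem_filter, natCast_zsmul, neg_smul, one_smul, ← sub_eq_add_neg]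

/-- the counting function of a prime divisor of the order is one mod p -/
lemma Planar.cnt_modp (hP : Planar n D) {p : ℕ} [Fact p.Prime] (hp : p ∣ n) (h : G) :
    ((cnt p D h : ℕ) : ZMod p) = 1 := by
  rw [← coeff_XX_mul_XX_neg]
  have h1 : XX (ZMod p) (p : ℤ) D = XX (ZMod p) 1 D ^ p := by
    rw [XX_pow_char p 1, mul_one]
  have hn : ((n : ℕ) : ZMod p) = 0 := (ZMod.natCast_eq_zero_iff n p).mpr hp
  have hpp : 1 ≤ p := (Fact.out : p.Prime).one_lt.le
  obtain ⟨m, hm⟩ : ∃ m, p = m + 1 := ⟨p - 1, by omega⟩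
  have h2 : XX (ZMod p) (p : ℤ) D * XX (ZMod p) (-1) D = JJ (ZMod p) G := by
    rw [h1]
    have hXY := hP.XY (K := ZMod p)
    rw [hn, zero_smul, zero_add] at hXY
    have : XX (ZMod p) 1 D ^ p = XX (ZMod p) 1 D ^ (p - 1) * XX (ZMod p) 1 D := by
      rw [← pow_succ]; congr 1; omega
    rw [this, mul_assoc, hXY]
    have hJ : ∀ k : ℕ, XX (ZMod p) 1 D ^ k * JJ (ZMod p) G = JJ (ZMod p) G := by
      intro k
      induction k with
      | zero => simp
      | succ k ih =>
        rw [pow_succ, mul_assoc, XX_mul_JJ, hP.cardD, Nat.cast_add, hn, Nat.cast_one, zero_add,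
          one_smul, ih]
    exact hJ _
  rw [h2, coeff_JJ]

/-- first multiplier theorem, planar case -/
theorem Planar.first_multiplier (hP : Planar n D) (hn : 2 ≤ n) {p : ℕ} (hpp : p.Prime)
    (hp : p ∣ n) : ∃ g, D.image (fun x => p • x) = PDS.trans D g := by
  have : Fact p.Prime := ⟨hpp⟩
  have hcop : Nat.Coprime p (Fintype.card G) := Nat.Coprime.coprime_dvd_left hp hP.coprime_n
  have hpos : ∀ h : G, 1 ≤ cnt p D h := by
    intro h
    by_contra hlt
    have h0 : cnt p D h = 0 := by omega
    have := hP.cnt_modp hp h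
    rw [h0, Nat.cast_zero] at this
    exact zero_ne_one this
  have hs1 : ∑ h : G, cnt p D h = (n + 1) ^ 2 := by rw [sum_cnt, hP.cardD]
  have hs2 := hP.sum_cnt_sq hcop
  -- integers
  have e1 : ∑ h : G, ((cnt p D h : ℤ) - 1) = n := by
    rw [Finset.sum_sub_distrib, ← Nat.cast_sum, hs1]
    simp only [Finset.sum_const, Finset.card_univ, hP.cardG, nsmul_eq_mul, mul_one]
    push_cast
    ring
  have e2 : ∑ h : G, ((cnt p D h : ℤ) - 1) ^ 2 = (n : ℤ) ^ 2 := by
    have : ∀ h : G, ((cnt p D h : ℤ) - 1) ^ 2 = (cnt p D h : ℤ) ^ 2 - 2 * (cnt p D h : ℤ) + 1 := by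
      intro h; ring
    simp only [this]
    rw [Finset.sum_add_distrib, Finset.sum_sub_distrib, ← Finset.mul_sum]
    have h3 : ∑ h : G, (cnt p D h : ℤ) ^ 2 = ((n : ℤ) + 1) ^ 2 + n * (n + 1) := by
      have := congrArg (Nat.cast : ℕ → ℤ) hs2
      push_cast at this
      exact this
    have h4 : ∑ h : G, (cnt p D h : ℤ) = ((n : ℤ) + 1) ^ 2 := by
      have := congrArg (Nat.cast : ℕ → ℤ) hs1
      push_cast at this
      exact this
    rw [h3, h4]
    simp only [Finset.sum_const, Finset.card_univ, hP.cardG, nsmul_eq_mul, mul_one]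
    push_cast
    ring
  have hle : ∀ h : G, ((cnt p D h : ℤ) - 1) ≤ n := by
    intro h
    rw [← e1]
    apply Finset.single_le_sum (f := fun h : G => ((cnt p D h : ℤ) - 1)) _ (Finset.mem_univ h)
    intro i _
    have := hpos i
    omega
  have e3 : ∑ h : G, ((cnt p D h : ℤ) - 1) * ((n : ℤ) - ((cnt p D h : ℤ) - 1)) = 0 := by
    have : ∀ h : G, ((cnt p D h : ℤ) - 1) * ((n : ℤ) - ((cnt p D h : ℤ) - 1))
        = n * ((cnt p D h : ℤ) - 1) - ((cnt p D h : ℤ) - 1) ^ 2 := by
      intro h; ring
    simp only [this]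
    rw [Finset.sum_sub_distrib, ← Finset.mul_sum, e1, e2]
    ring
  have e4 := (Finset.sum_eq_zero_iff_of_nonneg (by
    intro h _
    apply mul_nonneg
    · have := hpos h; omega
    · have := hle h; linarith)).mp e3
  -- some value is not one
  obtain ⟨h, hh⟩ : ∃ h : G, (cnt p D h : ℤ) - 1 ≠ 0 := by
    by_contra hcon
    push Not at hcon
    rw [Finset.sum_congr rfl (fun h _ => hcon h)] at e1
    simp only [Finset.sum_const_zero] at e1
    omega
  have hval : cnt p D h = n + 1 := by
    have := e4 h (Finset.mem_univ h)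
    rcases mul_eq_zero.mp this with h5 | h5
    · exact absurd h5 hh
    · have : (cnt p D h : ℤ) = n + 1 := by linarith
      exact_mod_cast this
  refine ⟨h, ?_⟩
  have hsub : D.image (fun x => p • x) ⊆ PDS.trans D h := by
    -- first projection is injective on the fibre
    have himg : (((D ×ˢ D).filter (fun q : G × G => p • q.1 - q.2 = h)).image Prod.fst) = D := by
      apply Finset.eq_of_subset_of_card_le
      · intro x hx
        rw [Finset.mem_image] at hx
        obtain ⟨q, hq, rfl⟩ := hx
        rw [Finset.mem_filter, Finset.mem_product] at hq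
        exact hq.1.1
      · rw [Finset.card_image_of_injOn]
        · change _ ≤ cnt p D h
          rw [hval, hP.cardD]
        · intro q hq q' hq' e
          simp only [Finset.coe_filter, Set.mem_ofPred_eq] at hq hq'
          have e5 : q.2 = q'.2 := by
            have e6 : q.2 = p • q.1 - h := by rw [← hq.2]; abel
            have e7 : q'.2 = p • q'.1 - h := by rw [← hq'.2]; abel
            rw [e6, e7, e]
          exact Prod.ext e e5
    intro x hx
    rw [Finset.mem_image] at hx
    obtain ⟨a, ha, rfl⟩ := hx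
    rw [← himg, Finset.mem_image] at ha
    obtain ⟨q, hq, rfl⟩ := ha
    rw [Finset.mem_filter, Finset.mem_product] at hq
    rw [mem_trans]
    have : p • q.1 - h = q.2 := by rw [← hq.2]; abel
    rw [this]
    exact hq.1.2
  apply Finset.eq_of_subset_of_card_le hsub
  rw [card_trans, Finset.card_image_of_injective _ (fun a b e => nsmul_inj_of_coprime hcop e)]

/-- every divisor of the order fixes the normalised set -/
theorem Planar.fixes_of_dvd (hP : Planar n D) (hn : 2 ≤ n) (h0 : ∑ x ∈ D, x = 0) :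
    ∀ m : ℕ, m ≠ 0 → m ∣ n → Fixes m D := by
  intro m
  induction m using Nat.recOnMul with
  | zero => intro h; exact absurd rfl h
  | one => intro _ _; exact Fixes.one
  | prime p hp =>
    intro _ hd
    obtain ⟨g, hg⟩ := hP.first_multiplier hn hp hd
    exact hP.fixes_of_mult h0 (Nat.Coprime.coprime_dvd_left hd hP.coprime_n) hg
  | mul a b ha hb =>
    intro hab hd
    exact (ha (by rintro rfl; simp at hab) (dvd_trans (dvd_mul_right a b) hd)).mul
      (hb (by rintro rfl; simp at hab) (dvd_trans (dvd_mul_left b a) hd))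

end Pool.Agent.helper53.PDS
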