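import Pool.Agent.helper53.PDS3

set_option autoImplicit false
set_option linter.unusedSectionVars false

namespace Pool.Agent.helper53.PDS

open Finset AddMonoidAlgebra

variable {G : Type*} [AddCommGroup G] [Fintype G] [DecidableEq G] {n : ℕ} {D : Finset G}

lemma Planar.orbit_sum (hP : Planar n D) (a : G) : a + n • a + (n ^ 2) • a = 0 := by
  have : (n ^ 2 + n + 1) • a = 0 := by rw [← hP.cardG]; exact card_nsmul_eq_zero
  rw [add_nsmul, add_nsmul, one_nsmul] at this
  rw [← this]
  abel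

/-- number of zero-sum triples -/
def trip (D : Finset G) (g : G) : ℕ :=
  ((D ×ˢ (D ×ˢ D)).filter (fun q : G × (G × G) => q.1 + (q.2.1 + q.2.2) = g)).card

lemma trip_eq (D : Finset G) (g : G) : trip D g
    = ∑ a ∈ D, ((D ×ˢ D).filter (fun q : G × G => a + (q.1 + q.2) = g)).card := by
  unfold trip
  rw [Finset.card_eq_sum_card_fiberwise (f := fun q : G × (G × G) => q.1) (t := D)
    (by
      intro x hx
      simp only [Finset.coe_filter, Finset.mem_product, Set.mem_ofPred_eq] at hx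
      exact hx.1.1)]
  apply Finset.sum_congr rfl
  intro a ha
  refine Finset.card_bij' (fun q _ => q.2) (fun s _ => (a, s)) ?_ ?_ ?_ ?_
  · intro q hq
    simp only [Finset.mem_filter, Finset.mem_product] at hq ⊢
    obtain ⟨⟨⟨_, h1⟩, h2⟩, h3⟩ := hq
    exact ⟨h1, by rw [← h3]; exact h2⟩
  · intro s hs
    simp only [Finset.mem_filter, Finset.mem_product] at hs ⊢
    exact ⟨⟨⟨ha, hs.1⟩, hs.2⟩, trivial⟩
  · intro q hq
    simp only [Finset.mem_filter, Finset.mem_product] at hq
    rw [← hq.2]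
  · intro s _
    rfl

/-- the key count at zero -/
lemma Planar.trip_zero (hP : Planar n D) (hf : Fixes n D) :
    trip D 0 + (D.filter (fun a => n • a = a)).card = 2 * (n + 1) := by
  rw [trip_eq]
  have key : ∀ a ∈ D, ((D ×ˢ D).filter (fun q : G × G => a + (q.1 + q.2) = 0)).card
      = 2 - (if n • a = a then 1 else 0) := by
    intro a ha
    have h1 : n • a ∈ D := hf a ha
    have h2 : (n ^ 2) • a ∈ D := hf.pow 2 a ha
    have hset : ((D ×ˢ D).filter (fun q : G × G => a + (q.1 + q.2) = 0))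
        = {(n • a, (n ^ 2) • a), ((n ^ 2) • a, n • a)} := by
      ext ⟨b, c⟩
      simp only [Finset.mem_filter, Finset.mem_product, Finset.mem_insert, Finset.mem_singleton,
        Prod.mk.injEq]
      constructor
      · rintro ⟨⟨hb, hc⟩, e⟩
        have e1 : b - n • a = (n ^ 2) • a - c := by
          have h3 := hP.orbit_sum a
          have : b + c = n • a + (n ^ 2) • a := by
            have e4 : a + (b + c) = a + (n • a + (n ^ 2) • a) := by rw [e, ← h3]; abel
            exact add_left_cancel e4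
          have : b - n • a = (b + c) - c - n • a := by abel
          rw [this, ‹b + c = n • a + (n ^ 2) • a›]
          abel
        rcases hP.eq_or hb h1 h2 hc e1 with ⟨h5, h6⟩ | ⟨h5, h6⟩
        · left; exact ⟨h5, h6.symm⟩
        · right; exact ⟨h5, h6.symm⟩
      · rintro (⟨rfl, rfl⟩ | ⟨rfl, rfl⟩)
        · refine ⟨⟨h1, h2⟩, ?_⟩
          rw [← add_assoc]; exact hP.orbit_sum a
        · refine ⟨⟨h2, h1⟩, ?_⟩
          rw [add_comm ((n ^ 2) • a), ← add_assoc]; exact hP.orbit_sum a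
    rw [hset]
    split_ifs with hfix
    · have : (n ^ 2) • a = n • a := by
        rw [sq, mul_nsmul', hfix, hfix]
      rw [this]
      simp
    · rw [Finset.card_pair]
      intro e
      rw [Prod.mk.injEq] at e
      have e1 := e.1
      -- n a = n^2 a implies a = n a
      have : n • a = n • (n • a) := by
        rw [← mul_nsmul', ← sq]; exact e1
      exact hfix (nsmul_inj_of_coprime hP.coprime_n this).symm
  rw [Finset.sum_congr rfl key, Finset.card_filter, ← Finset.sum_add_distrib]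
  have : ∀ a ∈ D, (2 - (if n • a = a then 1 else 0)) + (if n • a = a then 1 else 0) = 2 := by
    intro a _
    split_ifs <;> rfl
  rw [Finset.sum_congr rfl this, Finset.sum_const, hP.cardD, smul_eq_mul, mul_comm]

lemma coeff_cube {K : Type*} [CommRing K] (t : ℤ) (g : G) :
    (XX K t D ^ 3).coeff g
      = (((D ×ˢ (D ×ˢ D)).filter
        (fun q : G × (G × G) => t • q.1 + (t • q.2.1 + t • q.2.2) = g)).card : K) := by
  have : XX K t D ^ 3 = ∑ q ∈ D ×ˢ (D ×ˢ D),
      (single (t • q.1 + (t • q.2.1 + t • q.2.2)) 1 : AddMonoidAlgebra K G) := by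
    rw [pow_succ', sq, XX_mul_XX]
    unfold XX
    rw [Finset.sum_mul_sum, Finset.sum_product]
    simp only [single_mul_single, one_mul]
  rw [this, coeff_sum_single]

lemma coeff_cube_one {K : Type*} [CommRing K] :
    (XX K 1 D ^ 3).coeff 0 = (trip D 0 : K) := by
  rw [coeff_cube]
  unfold trip
  simp only [one_smul]

lemma coeff_cube_neg {K : Type*} [CommRing K] :
    (XX K (-1) D ^ 3).coeff 0 = (trip D 0 : K) := by
  rw [coeff_cube]
  unfold trip
  congr 2
  ext q
  simp only [Finset.mem_filter, neg_smul, one_smul]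
  constructor
  · rintro ⟨h1, h2⟩
    refine ⟨h1, ?_⟩
    have : -(q.1 + (q.2.1 + q.2.2)) = 0 := by rw [← h2]; abel
    exact neg_eq_zero.mp this
  · rintro ⟨h1, h2⟩
    refine ⟨h1, ?_⟩
    have : -q.1 + (-q.2.1 + -q.2.2) = -(q.1 + (q.2.1 + q.2.2)) := by abel
    rw [this, h2, neg_zero]

/-- the evaluation modulo seven -/
lemma Planar.eval7 (hP : Planar n D) (h7 : Fixes 7 D) (hc : Nat.Coprime 7 (Fintype.card G)) :
    ((n : ZMod 7) ^ 4 - n) * (trip D 0 : ZMod 7) * ((n : ZMod 7) ^ 2 + n + 1)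
      = ((n : ZMod 7) ^ 4 - n) * ((n : ZMod 7) + 1) ^ 3 := by
  have : Fact (Nat.Prime 7) := ⟨by norm_num⟩
  set K := ZMod 7 with hK
  set X := XX K 1 D with hX
  set Y := XX K (-1) D with hY
  set J := JJ K G with hJ
  set v : K := (Fintype.card G : K) with hv
  have hveq : v = (n : K) ^ 2 + n + 1 := by rw [hv, hP.cardG]; push_cast; ring
  have hXY : X * Y = (n : K) • 1 + J := hP.XY
  have hXJ : X * J = ((n : K) + 1) • J := by
    rw [hX, hJ, XX_mul_JJ, hP.cardD]; push_cast; rfl
  have hYJ : Y * J = ((n : K) + 1) • J := by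
    rw [hY, hJ, XX_mul_JJ, hP.cardD]; push_cast; rfl
  have hJJ : J * J = v • J := JJ_mul_JJ
  have hX7 : X ^ 7 = X := by
    rw [hX, XX_pow_char 7 1]
    unfold XX
    have himg := h7.image_eq hc
    conv_rhs => rw [← himg]
    rw [Finset.sum_image (fun a _ b _ e => nsmul_inj_of_coprime hc e)]
    apply Finset.sum_congr rfl
    intro d _
    have h77 : ((7 : ℕ) : ℤ) * 1 = ((7 : ℕ) : ℤ) := by norm_num
    rw [h77, natCast_zsmul, one_smul]
  -- as algebra elements
  have c1 : (n : K) • (1 : AddMonoidAlgebra K G) = algebraMap K _ (n : K) := by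
    rw [Algebra.algebraMap_eq_smul_one]
  set A := algebraMap K (AddMonoidAlgebra K G) with hA
  have s1 : ∀ (c : K) (z : AddMonoidAlgebra K G), c • z = A c * z := fun c z =>
    Algebra.smul_def c z
  rw [s1] at hXJ hYJ hJJ
  rw [c1] at hXY
  set N := A (n : K) with hN
  have hXJ' : X * J = (N + 1) * J := by rw [hXJ, map_add, map_one]
  have hYJ' : Y * J = (N + 1) * J := by rw [hYJ, map_add, map_one]
  set V := A v with hV
  -- main relation
  have hX3J : X ^ 3 * J = (N + 1) ^ 3 * J := by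
    linear_combination (X ^ 2 + X * (N + 1) + (N + 1) ^ 2) * hXJ'
  have hY3J : Y ^ 3 * J = (N + 1) ^ 3 * J := by
    linear_combination (Y ^ 2 + Y * (N + 1) + (N + 1) ^ 2) * hYJ'
  have main : N ^ 4 * X ^ 3 + (4 * N ^ 3 + 6 * N ^ 2 * V + 4 * N * V ^ 2 + V ^ 3) * ((N + 1) ^ 3 * J)
      = N * Y ^ 3 + (N + 1) ^ 3 * J := by
    have e1 : X ^ 7 * Y ^ 4 = X * Y ^ 4 := by rw [hX7]
    have e2 : (N + J) ^ 4 * X ^ 3 = (N + J) * Y ^ 3 := by
      rw [← hXY]
      linear_combination e1
    have hJ4 : (N + J) ^ 4 = N ^ 4 + (4 * N ^ 3 + 6 * N ^ 2 * V + 4 * N * V ^ 2 + V ^ 3) * J := by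
      have h2 : J ^ 2 = V * J := by rw [sq]; exact hJJ
      linear_combination (6 * N ^ 2 + 4 * N * (J + V) + (J ^ 2 + J * V + V ^ 2)) * h2
    rw [hJ4] at e2
    linear_combination e2 + (-(4 * N ^ 3 + 6 * N ^ 2 * V + 4 * N * V ^ 2 + V ^ 3)) * hX3J + hY3J
  -- take the coefficient at zero
  set γ : K := (4 * (n : K) ^ 3 + 6 * (n : K) ^ 2 * v + 4 * n * v ^ 2 + v ^ 3) * (n + 1) ^ 3 with hγ
  have main2 : ((n : K) ^ 4) • X ^ 3 + γ • J = (n : K) • Y ^ 3 + ((n + 1) ^ 3 : K) • J := by
    rw [s1, s1, s1, s1, hγ]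
    simp only [map_mul, map_add, map_pow, map_one, map_ofNat]
    linear_combination main
  have m0 := congrArg (fun z => AddMonoidAlgebra.coeff z 0) main2
  simp only [AddMonoidAlgebra.coeff_add, AddMonoidAlgebra.coeff_smul, Finsupp.add_apply,
    Finsupp.smul_apply, smul_eq_mul] at m0
  rw [hX, hY, coeff_cube_one, coeff_cube_neg, hJ, coeff_JJ] at m0
  -- augmentation relation via multiplication by J
  have maug : ((n : K) ^ 4) * (n + 1) ^ 3 + γ * v = n * (n + 1) ^ 3 + (n + 1) ^ 3 * v := by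
    have e3 : (((n : K) ^ 4) • X ^ 3 + γ • J) * J
        = ((n : K) • Y ^ 3 + ((n + 1) ^ 3 : K) • J) * J := by rw [main2]
    have e4 : (((n : K) ^ 4) * (n + 1) ^ 3 + γ * v) • J
        = ((n : K) * (n + 1) ^ 3 + (n + 1) ^ 3 * v) • J := by
      rw [s1, s1]
      rw [s1, s1, s1, s1] at e3
      simp only [map_mul, map_add, map_pow, map_one] at e3 ⊢
      linear_combination e3 - (N ^ 4) * hX3J - A γ * hJJ + N * hY3J + (N + 1) ^ 3 * hJJ
    have e5 := congrArg (fun z => AddMonoidAlgebra.coeff z 0) e4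
    simp only [AddMonoidAlgebra.coeff_smul, Finsupp.smul_apply, smul_eq_mul] at e5
    rw [hJ, coeff_JJ, mul_one, mul_one] at e5
    exact e5
  rw [← hveq]
  linear_combination v * m0 - maug

end Pool.Agent.helper53.PDS
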