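import Pool.Agent.helper53.PDS4

set_option autoImplicit false
set_option linter.unusedSectionVars false

namespace Pool.Agent.helper53.PDS

open Finset

variable {G : Type*} [AddCommGroup G] [Fintype G] [DecidableEq G] {n : ℕ} {D : Finset G}

/-- number of elements of `D` fixed by multiplication with `n` -/
def kap (n : ℕ) (D : Finset G) : ℕ := (D.filter (fun a => n • a = a)).card

lemma Planar.three_smul (hP : Planar n D) {a : G} (ha : n • a = a) : 3 • a = 0 := by
  have h1 := hP.orbit_sum a
  rw [sq, mul_nsmul', ha, ha] at h1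
  have : 3 • a = a + a + a := by
    rw [show (3 : ℕ) = 1 + 1 + 1 by norm_num, add_nsmul, add_nsmul, one_nsmul]
  rw [this, h1]

lemma Planar.kap_mod (hP : Planar n D) (hf : Fixes n D) : kap n D ≡ n + 1 [MOD 3] := by
  -- the permutation of D induced by n
  let f : Function.End D := fun x => ⟨n • x.1, hf x.1 x.2⟩
  have hf3 : f ^ (3 ^ 1) = 1 := by
    funext x
    have : (f ^ 3) x = f (f (f x)) := by
      rw [pow_succ, pow_two]; rfl
    rw [pow_one, this]
    apply Subtype.ext
    change n • (n • (n • x.1)) = x.1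
    have h1 := hP.orbit_sum x.1
    have h2 := congrArg (fun z => n • z) h1
    simp only [nsmul_add, nsmul_zero] at h2
    rw [sq, mul_nsmul'] at h1 h2
    have h3 : n • n • n • (x.1 : G) = (n • (x.1:G) + n • n • x.1 + n • n • n • x.1)
      - (x.1 + n • x.1 + n • n • x.1) + x.1 := by abel
    rw [h3, h1, h2]
    abel
  have := Equiv.Perm.card_fixedPoints_modEq (p := 3) (n := 1) (f := f) hf3
  have h1 : Fintype.card D = n + 1 := by rw [Fintype.card_coe, hP.cardD]
  have h2 : Fintype.card f.fixedPoints = kap n D := by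
    unfold kap
    rw [← Fintype.card_coe]
    apply Fintype.card_congr
    refine ⟨fun x => ⟨x.1.1, ?_⟩, fun x => ⟨⟨x.1, ?_⟩, ?_⟩, ?_, ?_⟩
    · rw [Finset.mem_filter]
      refine ⟨x.1.2, ?_⟩
      have := x.2
      have h3 : f x.1 = x.1 := this
      exact congrArg Subtype.val h3
    · exact (Finset.mem_filter.mp x.2).1
    · change f _ = _
      apply Subtype.ext
      exact (Finset.mem_filter.mp x.2).2
    · intro x; rfl
    · intro x; rfl
  rw [h1, h2] at this
  exact this.symm

lemma not_nine_dvd (n : ℕ) : ¬ 9 ∣ n ^ 2 + n + 1 := by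
  intro h
  have h1 : (n ^ 2 + n + 1) % 9 = 0 := Nat.mod_eq_zero_of_dvd h
  have h2 : n % 9 < 9 := Nat.mod_lt _ (by norm_num)
  rw [Nat.add_mod, Nat.add_mod (n ^ 2), Nat.pow_mod] at h1
  interval_cases (n % 9) <;> simp at h1

lemma Planar.kap_le (hP : Planar n D) : kap n D ≤ 2 := by
  by_contra hlt
  push Not at hlt
  -- the 3-torsion subgroup
  let W : AddSubgroup G := AddMonoidHom.ker (nsmulAddMonoidHom (α := G) 3)
  have hW : ∀ x : G, x ∈ W ↔ 3 • x = 0 := fun x => by
    change _ = _ ↔ _
    rfl
  have hW3 : ∀ x : W, 3 • x = 0 := by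
    intro x
    apply Subtype.ext
    simpa using (hW x.1).mp x.2
  let _ : Module (ZMod 3) W := AddCommGroup.zmodModule hW3
  have : Fact (Nat.Prime 3) := ⟨by norm_num⟩
  have hfin : Fintype W := Fintype.ofFinite _
  have hcard := Module.card_eq_pow_finrank (K := ZMod 3) (V := W)
  rw [ZMod.card] at hcard
  have hdvd : Fintype.card W ∣ Fintype.card G := by
    rw [← Nat.card_eq_fintype_card, ← Nat.card_eq_fintype_card]
    exact AddSubgroup.card_addSubgroup_dvd_card W
  have hle1 : Module.finrank (ZMod 3) W ≤ 1 := by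
    by_contra hgt
    push Not at hgt
    have : 9 ∣ Fintype.card W := by
      rw [hcard, show (9 : ℕ) = 3 ^ 2 by norm_num]
      exact pow_dvd_pow 3 hgt
    have := dvd_trans this hdvd
    rw [hP.cardG] at this
    exact not_nine_dvd n this
  have hle : Fintype.card W ≤ 3 := by
    rw [hcard]
    calc 3 ^ Module.finrank (ZMod 3) W ≤ 3 ^ 1 := Nat.pow_le_pow_right (by norm_num) hle1
      _ = 3 := by norm_num
  -- the fixed elements of D are all of W
  have hsub : D.filter (fun a => n • a = a) ⊆ (Finset.univ : Finset G).filter (fun a => a ∈ W) := by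
    intro a ha
    rw [Finset.mem_filter] at ha ⊢
    exact ⟨Finset.mem_univ _, (hW a).mpr (hP.three_smul ha.2)⟩
  have hcW : ((Finset.univ : Finset G).filter (fun a => a ∈ W)).card = Fintype.card W := by
    rw [← Fintype.card_subtype]
  have heq := Finset.eq_of_subset_of_card_le hsub (by rw [hcW]; unfold kap at hlt; omega)
  have hmem : ∀ x : G, 3 • x = 0 → x ∈ D := by
    intro x hx
    have : x ∈ D.filter (fun a => n • a = a) := by
      rw [heq, Finset.mem_filter]
      exact ⟨Finset.mem_univ _, (hW x).mpr hx⟩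
    exact (Finset.mem_filter.mp this).1
  -- a nonzero element of W
  obtain ⟨w, hw, hw0⟩ : ∃ w : G, 3 • w = 0 ∧ w ≠ 0 := by
    by_contra hcon
    push Not at hcon
    have : D.filter (fun a => n • a = a) ⊆ {0} := by
      intro a ha
      rw [Finset.mem_filter] at ha
      rw [Finset.mem_singleton]
      exact hcon a (hP.three_smul ha.2)
    have := Finset.card_le_card this
    rw [Finset.card_singleton] at this
    unfold kap at hlt
    omega
  have h3w : 3 • w = w + w + w := by
    rw [show (3 : ℕ) = 1 + 1 + 1 by norm_num, add_nsmul, add_nsmul, one_nsmul]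
  have e : w - 0 = -w - w := by
    have : w - 0 = (w + w + w) + (-w - w) := by abel
    rw [this, ← h3w, hw, zero_add]
  have m1 : w ∈ D := hmem w hw
  have m0 : (0 : G) ∈ D := hmem 0 (by simp)
  have m2 : -w ∈ D := hmem (-w) (by rw [smul_neg, hw, neg_zero])
  rcases hP.eq_or m1 m0 m2 m1 e with ⟨h1, _⟩ | ⟨_, h1⟩
  · exact hw0 h1
  · exact hw0 h1.symm

/-- the residues modulo 7 and 3 -/
theorem Planar.residues (hP : Planar n D) (hf : Fixes n D) (h7 : Fixes 7 D)
    (hc : Nat.Coprime 7 (Fintype.card G)) (h7n : ¬ 7 ∣ n) :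
    n % 7 = 1 ∨ n % 21 = 10 ∨ n % 21 = 20 := by
  have h1 := hP.trip_zero hf
  change trip D 0 + kap n D = _ at h1
  have h2 := hP.kap_mod hf
  have h3 := hP.kap_le
  have h4 := hP.eval7 h7 hc
  have h5 : (trip D 0 : ZMod 7) = 2 * (n + 1) - (kap n D : ZMod 7) := by
    have := congrArg (Nat.cast : ℕ → ZMod 7) h1
    push_cast at this
    rw [← this]; ring
  rw [h5] at h4
  have hv : (Fintype.card G) % 7 ≠ 0 := by
    intro h
    have := Nat.dvd_of_mod_eq_zero h
    have := Nat.dvd_gcd (dvd_refl 7) this
    rw [hc.gcd_eq_one] at this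
    norm_num at this
  rw [hP.cardG, Nat.add_mod, Nat.add_mod (n ^ 2), Nat.pow_mod] at hv
  have hn7 : (n : ZMod 7) = ((n % 7 : ℕ) : ZMod 7) := by simp
  rw [hn7] at h4
  have h6 : n % 7 < 7 := Nat.mod_lt _ (by norm_num)
  have h7' : n % 7 ≠ 0 := fun h => h7n (Nat.dvd_of_mod_eq_zero h)
  generalize hr : n % 7 = r at *
  generalize hk : kap n D = k at *
  unfold Nat.ModEq at h2
  have hk3 : k < 3 := by omega
  interval_cases r
  · exact absurd rfl h7'
  · left; rfl
  · exact absurd (by norm_num) hv
  · interval_cases k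
    · exfalso; revert h4; decide
    · exfalso; revert h4; decide
    · right; left; omega
  · exact absurd (by norm_num) hv
  · interval_cases k <;> (exfalso; revert h4; decide)
  · interval_cases k
    · right; right; omega
    · exfalso; revert h4; decide
    · exfalso; revert h4; decide

end Pool.Agent.helper53.PDS
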