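import Pool.Agent.helper53.PDS5

set_option autoImplicit false
set_option linter.unusedSectionVars false

namespace Pool.Agent.helper53.PDS

open Finset

variable {G : Type*} [AddCommGroup G] [Fintype G] [DecidableEq G] {n : ℕ} {D : Finset G}

lemma not_five_dvd (n : ℕ) : ¬ 5 ∣ n ^ 2 + n + 1 := by
  intro h
  have h1 : (n ^ 2 + n + 1) % 5 = 0 := Nat.mod_eq_zero_of_dvd h
  have h2 : n % 5 < 5 := Nat.mod_lt _ (by norm_num)
  rw [Nat.add_mod, Nat.add_mod (n ^ 2), Nat.pow_mod] at h1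
  interval_cases (n % 5) <;> simp at h1

lemma not_two_dvd (n : ℕ) : ¬ 2 ∣ n ^ 2 + n + 1 := by
  intro h
  have h1 : (n ^ 2 + n + 1) % 2 = 0 := Nat.mod_eq_zero_of_dvd h
  have h2 : n % 2 < 2 := Nat.mod_lt _ (by norm_num)
  rw [Nat.add_mod, Nat.add_mod (n ^ 2), Nat.pow_mod] at h1
  interval_cases (n % 2) <;> simp at h1

lemma dvd_three {o n p : ℕ} (h7 : Nat.Coprime 7 (n ^ 2 + n + 1))
    (hp : Nat.Coprime p (n ^ 2 + n + 1)) (ho : o ∣ n ^ 2 + n + 1) {a b c e f : ℕ}
    (hA : o ∣ 2 ^ a * (5 ^ c * (7 ^ e * (p ^ f * 3 ^ b)))) : o ∣ 3 := by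
  have c2 : Nat.Coprime o (2 ^ a) := by
    apply Nat.Coprime.pow_right
    exact (Nat.Coprime.coprime_dvd_left ho
      ((Nat.Prime.coprime_iff_not_dvd Nat.prime_two).mpr (not_two_dvd n)).symm)
  have c5 : Nat.Coprime o (5 ^ c) := by
    apply Nat.Coprime.pow_right
    exact (Nat.Coprime.coprime_dvd_left ho
      ((Nat.Prime.coprime_iff_not_dvd Nat.prime_five).mpr (not_five_dvd n)).symm)
  have c7 : Nat.Coprime o (7 ^ e) :=
    Nat.Coprime.pow_right _ (Nat.Coprime.coprime_dvd_left ho h7.symm)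
  have cp : Nat.Coprime o (p ^ f) :=
    Nat.Coprime.pow_right _ (Nat.Coprime.coprime_dvd_left ho hp.symm)
  have h3 : o ∣ 3 ^ b := cp.dvd_of_dvd_mul_left (c7.dvd_of_dvd_mul_left
    (c5.dvd_of_dvd_mul_left (c2.dvd_of_dvd_mul_left hA)))
  obtain ⟨j, _, rfl⟩ := (Nat.dvd_prime_pow Nat.prime_three).mp h3
  have hj : j ≤ 1 := by
    by_contra hlt
    push Not at hlt
    apply not_nine_dvd n
    refine dvd_trans ?_ ho
    rw [show (9 : ℕ) = 3 ^ 2 by norm_num]
    exact pow_dvd_pow 3 hlt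
  calc 3 ^ j ∣ 3 ^ 1 := pow_dvd_pow 3 hj
    _ = 3 := by norm_num

lemma Planar.fix_of_three (hP : Planar n D) {a : G} (ha : 3 • a = 0) : n • a = a := by
  have h0 : (n ^ 2 + n + 1) • a = 0 := by rw [← hP.cardG]; exact card_nsmul_eq_zero
  have hmod : ∀ m : ℕ, m • a = (m % 3) • a := by
    intro m
    conv_lhs => rw [← Nat.div_add_mod m 3, add_nsmul, mul_comm, mul_nsmul', ha, nsmul_zero,
      zero_add]
  have h3 : n % 3 < 3 := Nat.mod_lt _ (by norm_num)
  rw [hmod, Nat.add_mod, Nat.add_mod (n ^ 2), Nat.pow_mod] at h0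
  rw [hmod n]
  generalize n % 3 = r at *
  interval_cases r
  · have : a = 0 := by simpa using h0
    rw [this, nsmul_zero]
  · rw [one_nsmul]
  · have : a = 0 := by simpa using h0
    rw [this, nsmul_zero]

/-- additive coincidences between multipliers are impossible -/
theorem Planar.collision (hP : Planar n D) (hn : 2 ≤ n) {t1 t2 t3 t4 : ℕ}
    (f1 : Fixes t1 D) (f2 : Fixes t2 D) (f3 : Fixes t3 D) (f4 : Fixes t4 D)
    (h12 : t2 ≤ t1) (h13 : t3 ≤ t1) (hs : t1 + t4 = t2 + t3)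
    (hA : ∀ o, o ∣ n ^ 2 + n + 1 → o ∣ t1 - t2 → o ∣ 3)
    (hB : ∀ o, o ∣ n ^ 2 + n + 1 → o ∣ t1 - t3 → o ∣ 3) : False := by
  have hall : ∀ d ∈ D, n • d = d := by
    intro d hd
    apply hP.fix_of_three
    have key : ∀ t s : ℕ, s ≤ t → t • d = s • d →
        (∀ o, o ∣ n ^ 2 + n + 1 → o ∣ t - s → o ∣ 3) → 3 • d = 0 := by
      intro t s hst e h
      have e1 : (t - s) • d = 0 := by
        have : t • d = (t - s) • d + s • d := by
          rw [← add_nsmul]; congr 1; omega
        rw [e] at this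
        exact (right_eq_add.mp this)
      have h1 : addOrderOf d ∣ n ^ 2 + n + 1 := by
        rw [← hP.cardG]; exact addOrderOf_dvd_card
      exact addOrderOf_dvd_iff_nsmul_eq_zero.mp (h _ h1 (addOrderOf_dvd_of_nsmul_eq_zero e1))
    have e : t1 • d - t2 • d = t3 • d - t4 • d := by
      have e1 : t1 • d + t4 • d = t2 • d + t3 • d := by rw [← add_nsmul, ← add_nsmul, hs]
      have : t1 • d = t2 • d + t3 • d - t4 • d := by rw [← e1]; abel
      rw [this]; abel
    rcases hP.eq_or (f1 d hd) (f2 d hd) (f3 d hd) (f4 d hd) e with ⟨h, _⟩ | ⟨h, _⟩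
    · exact key _ _ h12 h hA
    · exact key _ _ h13 h hB
  have h1 := hP.kap_le
  unfold kap at h1
  rw [Finset.filter_true_of_mem hall, hP.cardD] at h1
  omega

/-- excluded prime divisors of the order -/
theorem Planar.excluded (hP : Planar n D) (hn : 2 ≤ n) (h0 : ∑ x ∈ D, x = 0) (h7 : Fixes 7 D)
    (hc : Nat.Coprime 7 (Fintype.card G)) :
    Nat.Coprime n (2 * 3 * 5 * 13 * 19 * 43 * 97 * 337 * 1201 * 2801) := by
  have hcv : Nat.Coprime 7 (n ^ 2 + n + 1) := by rw [← hP.cardG]; exact hc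
  have hfix : ∀ p : ℕ, p ≠ 0 → p ∣ n → Fixes p D := hP.fixes_of_dvd hn h0
  have hcop : ∀ p : ℕ, p ∣ n → Nat.Coprime p (n ^ 2 + n + 1) := by
    intro p hp
    rw [← hP.cardG]
    exact Nat.Coprime.coprime_dvd_left hp hP.coprime_n
  have f1 : Fixes 1 D := Fixes.one
  have n2 : ¬ 2 ∣ n := by
    intro h
    have hp := hfix 2 (by norm_num) h
    refine hP.collision hn (t1 := 8) (t2 := 7) (t3 := 2) (t4 := 1) (hp.pow 3) h7 hp f1
      (by norm_num) (by norm_num) (by norm_num) ?_ ?_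
    · intro o ho h
      exact dvd_three hcv (hcop 2 ‹_›) ho (a := 0) (b := 0) (c := 0) (e := 0) (f := 0)
        (by norm_num at h ⊢; exact h)
    · intro o ho h
      exact dvd_three hcv (hcop 2 ‹_›) ho (a := 1) (b := 1) (c := 0) (e := 0) (f := 0)
        (by norm_num at h ⊢; exact h)
  have n3 : ¬ 3 ∣ n := by
    intro h
    have hp := hfix 3 (by norm_num) h
    refine hP.collision hn (t1 := 9) (t2 := 7) (t3 := 3) (t4 := 1) (hp.pow 2) h7 hp f1
      (by norm_num) (by norm_num) (by norm_num) ?_ ?_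
    · intro o ho h
      exact dvd_three hcv (hcop 3 ‹_›) ho (a := 1) (b := 0) (c := 0) (e := 0) (f := 0)
        (by norm_num at h ⊢; exact h)
    · intro o ho h
      exact dvd_three hcv (hcop 3 ‹_›) ho (a := 1) (b := 1) (c := 0) (e := 0) (f := 0)
        (by norm_num at h ⊢; exact h)
  have n5 : ¬ 5 ∣ n := by
    intro h
    have hp := hfix 5 (by norm_num) h
    refine hP.collision hn (t1 := 49) (t2 := 25) (t3 := 25) (t4 := 1) (h7.pow 2) (hp.pow 2)
      (hp.pow 2) f1 (by norm_num) (by norm_num) (by norm_num) ?_ ?_ <;>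
    · intro o ho h
      exact dvd_three hcv (hcop 5 ‹_›) ho (a := 3) (b := 1) (c := 0) (e := 0) (f := 0)
        (by norm_num at h ⊢; exact h)
  have n13 : ¬ 13 ∣ n := by
    intro h
    have hp := hfix 13 (by norm_num) h
    refine hP.collision hn (t1 := 13) (t2 := 7) (t3 := 7) (t4 := 1) hp h7 h7 f1
      (by norm_num) (by norm_num) (by norm_num) ?_ ?_ <;>
    · intro o ho h
      exact dvd_three hcv (hcop 13 ‹_›) ho (a := 1) (b := 1) (c := 0) (e := 0) (f := 0)
        (by norm_num at h ⊢; exact h)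
  have n19 : ¬ 19 ∣ n := by
    intro h
    have hp := hfix 19 (by norm_num) h
    refine hP.collision hn (t1 := 361) (t2 := 343) (t3 := 19) (t4 := 1) (hp.pow 2) (h7.pow 3)
      hp f1 (by norm_num) (by norm_num) (by norm_num) ?_ ?_
    · intro o ho h
      exact dvd_three hcv (hcop 19 ‹_›) ho (a := 1) (b := 2) (c := 0) (e := 0) (f := 0)
        (by norm_num at h ⊢; exact h)
    · intro o ho h
      exact dvd_three hcv (hcop 19 ‹_›) ho (a := 1) (b := 2) (c := 0) (e := 0) (f := 1)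
        (by norm_num at h ⊢; exact h)
  have n43 : ¬ 43 ∣ n := by
    intro h
    have hp := hfix 43 (by norm_num) h
    refine hP.collision hn (t1 := 49) (t2 := 43) (t3 := 7) (t4 := 1) (h7.pow 2) hp
      h7 f1 (by norm_num) (by norm_num) (by norm_num) ?_ ?_
    · intro o ho h
      exact dvd_three hcv (hcop 43 ‹_›) ho (a := 1) (b := 1) (c := 0) (e := 0) (f := 0)
        (by norm_num at h ⊢; exact h)
    · intro o ho h
      exact dvd_three hcv (hcop 43 ‹_›) ho (a := 1) (b := 1) (c := 0) (e := 1) (f := 0)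
        (by norm_num at h ⊢; exact h)
  have n97 : ¬ 97 ∣ n := by
    intro h
    have hp := hfix 97 (by norm_num) h
    refine hP.collision hn (t1 := 97) (t2 := 49) (t3 := 49) (t4 := 1) hp (h7.pow 2)
      (h7.pow 2) f1 (by norm_num) (by norm_num) (by norm_num) ?_ ?_ <;>
    · intro o ho h
      exact dvd_three hcv (hcop 97 ‹_›) ho (a := 4) (b := 1) (c := 0) (e := 0) (f := 0)
        (by norm_num at h ⊢; exact h)
  have n337 : ¬ 337 ∣ n := by
    intro h
    have hp := hfix 337 (by norm_num) h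
    refine hP.collision hn (t1 := 343) (t2 := 337) (t3 := 7) (t4 := 1) (h7.pow 3) hp
      h7 f1 (by norm_num) (by norm_num) (by norm_num) ?_ ?_
    · intro o ho h
      exact dvd_three hcv (hcop 337 ‹_›) ho (a := 1) (b := 1) (c := 0) (e := 0) (f := 0)
        (by norm_num at h ⊢; exact h)
    · intro o ho h
      exact dvd_three hcv (hcop 337 ‹_›) ho (a := 4) (b := 1) (c := 0) (e := 1) (f := 0)
        (by norm_num at h ⊢; exact h)
  have n1201 : ¬ 1201 ∣ n := by
    intro h
    have hp := hfix 1201 (by norm_num) h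
    refine hP.collision hn (t1 := 2401) (t2 := 1201) (t3 := 1201) (t4 := 1) (h7.pow 4) hp
      hp f1 (by norm_num) (by norm_num) (by norm_num) ?_ ?_ <;>
    · intro o ho h
      exact dvd_three hcv (hcop 1201 ‹_›) ho (a := 4) (b := 1) (c := 2) (e := 0) (f := 0)
        (by norm_num at h ⊢; exact h)
  have n2801 : ¬ 2801 ∣ n := by
    intro h
    have hp := hfix 2801 (by norm_num) h
    refine hP.collision hn (t1 := 19607) (t2 := 2801) (t3 := 16807) (t4 := 1) (h7.mul hp) hp
      (h7.pow 5) f1 (by norm_num) (by norm_num) (by norm_num) ?_ ?_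
    · intro o ho h
      exact dvd_three hcv (hcop 2801 ‹_›) ho (a := 1) (b := 1) (c := 0) (e := 0) (f := 1)
        (by norm_num at h ⊢; exact h)
    · intro o ho h
      exact dvd_three hcv (hcop 2801 ‹_›) ho (a := 4) (b := 0) (c := 2) (e := 1) (f := 0)
        (by norm_num at h ⊢; exact h)
  have cc : ∀ q : ℕ, q.Prime → ¬ q ∣ n → Nat.Coprime n q := by
    intro q hq h
    exact ((Nat.Prime.coprime_iff_not_dvd hq).mpr h).symm
  refine Nat.Coprime.mul_right (Nat.Coprime.mul_right (Nat.Coprime.mul_right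
    (Nat.Coprime.mul_right (Nat.Coprime.mul_right (Nat.Coprime.mul_right (Nat.Coprime.mul_right
    (Nat.Coprime.mul_right (Nat.Coprime.mul_right ?_ ?_) ?_) ?_) ?_) ?_) ?_) ?_) ?_) ?_
  · exact cc 2 (by norm_num) n2
  · exact cc 3 (by norm_num) n3
  · exact cc 5 (by norm_num) n5
  · exact cc 13 (by norm_num) n13
  · exact cc 19 (by norm_num) n19
  · exact cc 43 (by norm_num) n43
  · exact cc 97 (by norm_num) n97
  · exact cc 337 (by norm_num) n337
  · exact cc 1201 (by norm_num) n1201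
  · exact cc 2801 (by norm_num) n2801

end Pool.Agent.helper53.PDS
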