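import Pool.Agent.helper53.PDS6

set_option autoImplicit false
set_option linter.unusedSectionVars false

namespace Pool.Agent.helper53.PDS

open Finset

variable {G : Type*} [AddCommGroup G] [Fintype G] [DecidableEq G] {n : ℕ} {D : Finset G}

/-- the norm equation for characters -/
lemma Planar.char_norm (hP : Planar n D) (ψ : AddChar G ℂ) (hψ : ψ ≠ 0) :
    (∑ d ∈ D, ψ d) * (∑ d ∈ D, ψ (-d)) = n := by
  rw [Finset.sum_mul_sum, ← Finset.sum_product']
  have h1 : ∀ p : G × G, ψ p.1 * ψ (-p.2) = ψ (p.1 - p.2) := by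
    intro p
    rw [← AddChar.map_add_eq_mul, sub_eq_add_neg]
  simp only [h1]
  rw [← Finset.sum_fiberwise_of_maps_to (s := D ×ˢ D) (t := (Finset.univ : Finset G))
    (g := fun p : G × G => p.1 - p.2) (fun _ _ => Finset.mem_univ _)]
  have h2 : ∀ x : G, ∑ p ∈ (D ×ˢ D).filter (fun p : G × G => p.1 - p.2 = x), ψ (p.1 - p.2)
      = ψ x + (if x = 0 then (n : ℂ) else 0) := by
    intro x
    have : ∀ p ∈ (D ×ˢ D).filter (fun p : G × G => p.1 - p.2 = x), ψ (p.1 - p.2) = ψ x := by
      intro p hp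
      rw [(Finset.mem_filter.mp hp).2]
    rw [Finset.sum_congr rfl this, Finset.sum_const]
    split_ifs with hx
    · subst hx
      have hc : ((D ×ˢ D).filter (fun p : G × G => p.1 - p.2 = 0)).card = n + 1 := by
        rw [← hP.cardD]
        refine Finset.card_bij' (fun p _ => p.1) (fun a _ => (a, a)) ?_ ?_ ?_ ?_
        · intro p hp
          simp only [Finset.mem_filter, Finset.mem_product] at hp
          exact hp.1.1
        · intro a ha
          simp [ha]
        · intro p hp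
          simp only [Finset.mem_filter, Finset.mem_product] at hp
          have h2 : p.1 = p.2 := sub_eq_zero.mp hp.2
          ext <;> simp [h2]
        · intro a _
          rfl
      rw [hc, AddChar.map_zero_eq_one]
      simp
      ring
    · obtain ⟨p, ⟨h1, h2, h3⟩, hp⟩ := hP.uniq x hx
      have : ((D ×ˢ D).filter (fun q : G × G => q.1 - q.2 = x)) = {p} := by
        ext q
        simp only [Finset.mem_filter, Finset.mem_product, Finset.mem_singleton]
        constructor
        · rintro ⟨⟨ha, hb⟩, hc⟩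
          exact hp q ⟨ha, hb, hc⟩
        · rintro rfl
          exact ⟨⟨h1, h2⟩, h3⟩
      rw [this, Finset.card_singleton, one_smul, add_zero]
  simp only [h2]
  rw [Finset.sum_add_distrib, AddChar.sum_eq_zero_iff_ne_zero.mpr hψ, zero_add]
  simp

/-- if a multiplier is minus one modulo a prime divisor of the group order then the order of
the plane is a square -/
theorem Planar.isSquare_of_neg_one (hP : Planar n D) {w : ℕ} (hw : w.Prime)
    (hwv : w ∣ n ^ 2 + n + 1) {t : ℕ} (ht : Fixes t D) (htc : Nat.Coprime t (Fintype.card G))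
    (htw : w ∣ t + 1) : IsSquare n := by
  by_contra hns
  have hF : Fact w.Prime := ⟨hw⟩
  -- a character of order w
  obtain ⟨χ, hχ⟩ : ∃ χ : AddChar G ℂ, orderOf χ = w := by
    have : w ∣ Fintype.card (AddChar G ℂ) := by rw [AddChar.card_eq, hP.cardG]; exact hwv
    exact exists_prime_orderOf_dvd_card w this
  have hχw : χ ^ w = 1 := by rw [← hχ]; exact pow_orderOf_eq_one χ
  have hval : ∀ g : G, (χ g) ^ w = 1 := by
    intro g
    rw [← AddChar.pow_apply, hχw]; rfl
  -- the square of each nontrivial sum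
  have hsq : ∀ j ∈ Finset.Ico 1 w, (∑ d ∈ D, (χ d) ^ j) ^ 2 = n := by
    intro j hj
    rw [Finset.mem_Ico] at hj
    have hne : χ ^ j ≠ 0 := by
      intro h
      have h1 : χ ^ j = 1 := h
      have := orderOf_dvd_of_pow_eq_one h1
      rw [hχ] at this
      exact absurd (Nat.le_of_dvd (by omega) this) (by omega)
    have h1 := hP.char_norm (χ ^ j) hne
    have h2 : ∑ d ∈ D, (χ ^ j) (-d) = ∑ d ∈ D, (χ ^ j) d := by
      have e1 : ∑ d ∈ D, (χ ^ j) d = ∑ d ∈ D, (χ ^ j) (t • d) := by
        conv_lhs => rw [← ht.image_eq htc]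
        rw [Finset.sum_image (fun a _ b _ e => nsmul_inj_of_coprime htc e)]
      rw [e1]
      apply Finset.sum_congr rfl
      intro d _
      rw [AddChar.map_nsmul_eq_pow, AddChar.map_neg_eq_inv, AddChar.pow_apply]
      have hne0 : (χ d) ^ j ≠ 0 := by
        intro h
        have := hval d
        have h0 : χ d = 0 := pow_eq_zero_iff (by omega) |>.mp h
        rw [h0, zero_pow hw.pos.ne'] at this
        exact zero_ne_one this
      apply inv_eq_of_mul_eq_one_left
      rw [← pow_succ]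
      obtain ⟨k, hk⟩ := htw
      rw [hk, ← pow_mul, mul_comm j, mul_assoc, pow_mul, hval, one_pow]
    rw [h2] at h1
    simp only [AddChar.pow_apply] at h1
    rw [sq]; exact h1
  -- choose signs
  have hsgn : ∀ j ∈ Finset.Ico 1 w, ∃ e : ℤ, ∑ d ∈ D, (χ d) ^ j = (e : ℂ) * ((Real.sqrt n : ℝ) : ℂ) := by
    intro j hj
    have h1 := hsq j hj
    have h2 : (((Real.sqrt n : ℝ) : ℂ)) ^ 2 = n := by
      rw [← Complex.ofReal_pow, Real.sq_sqrt (Nat.cast_nonneg n)]
      simp
    rw [← h2] at h1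
    rcases sq_eq_sq_iff_eq_or_eq_neg.mp h1 with h | h
    · exact ⟨1, by rw [h]; simp⟩
    · exact ⟨-1, by rw [h]; simp⟩
  choose! e he using hsgn
  -- total sum
  have htot : ∑ j ∈ Finset.range w, ∑ d ∈ D, (χ d) ^ j
      = (w : ℂ) * ((D.filter (fun d => χ d = 1)).card : ℂ) := by
    rw [Finset.sum_comm]
    have : ∀ d ∈ D, ∑ j ∈ Finset.range w, (χ d) ^ j = if χ d = 1 then (w : ℂ) else 0 := by
      intro d _
      split_ifs with h
      · rw [h]; simp
      · have h1 := geom_sum_mul (χ d) w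
        rw [hval d, sub_self] at h1
        rcases mul_eq_zero.mp h1 with h2 | h2
        · exact h2
        · exact absurd (sub_eq_zero.mp h2) h
    rw [Finset.sum_congr rfl this, ← Finset.sum_filter, Finset.sum_const, nsmul_eq_mul, mul_comm]
  have hsplit : ∑ j ∈ Finset.range w, ∑ d ∈ D, (χ d) ^ j
      = ((n : ℂ) + 1) + ((∑ j ∈ Finset.Ico 1 w, e j : ℤ) : ℂ) * ((Real.sqrt n : ℝ) : ℂ) := by
    rw [Finset.range_eq_Ico, Finset.sum_eq_sum_Ico_succ_bot hw.pos]
    congr 1
    · simp only [pow_zero, Finset.sum_const, hP.cardD, nsmul_eq_mul, mul_one]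
      push_cast; rfl
    · push_cast
      rw [Finset.sum_mul]
      exact Finset.sum_congr rfl he
  rw [hsplit] at htot
  set N := (D.filter (fun d => χ d = 1)).card with hN
  set m : ℤ := ∑ j ∈ Finset.Ico 1 w, e j with hm
  have hreal : ((n : ℝ) + 1) + (m : ℝ) * Real.sqrt n = (w : ℝ) * (N : ℝ) := by
    have := congrArg Complex.re htot
    simpa using this
  have hirr : Irrational (Real.sqrt n) := irrational_sqrt_natCast_iff.mpr hns
  have hm0 : m = 0 := by
    by_contra hm0
    have hm0' : (m : ℝ) ≠ 0 := by exact_mod_cast hm0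
    apply hirr
    refine ⟨(((w : ℚ) * N - (n + 1)) / m), ?_⟩
    push_cast
    rw [div_eq_iff hm0', mul_comm]
    linarith
  rw [hm0] at hreal
  have h3 : n + 1 = w * N := by
    have : ((n : ℝ) + 1) = (w : ℝ) * N := by simpa using hreal
    exact_mod_cast this
  have h4 : w ∣ n + 1 := ⟨N, h3⟩
  have h5 : w ∣ 1 := by
    have h6 : n ^ 2 + n + 1 = n * (n + 1) + 1 := by ring
    rw [h6] at hwv
    exact (Nat.dvd_add_right (dvd_mul_of_dvd_right h4 n)).mp hwv
  exact hw.one_lt.ne' (Nat.dvd_one.mp h5)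

/-- for nonsquare order every multiplier is a square modulo each prime divisor -/
theorem Planar.isSquare_mod (hP : Planar n D) (hns : ¬ IsSquare n) {w : ℕ} (hw : w.Prime)
    (hwv : w ∣ n ^ 2 + n + 1) {t : ℕ} (ht : Fixes t D) (htc : Nat.Coprime t (Fintype.card G)) :
    IsSquare (t : ZMod w) := by
  have hF : Fact w.Prime := ⟨hw⟩
  have htw : (t : ZMod w) ≠ 0 := by
    intro h
    rw [ZMod.natCast_eq_zero_iff] at h
    have : w ∣ Nat.gcd t (Fintype.card G) := Nat.dvd_gcd h (by rw [hP.cardG]; exact hwv)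
    rw [htc.gcd_eq_one] at this
    exact hw.one_lt.ne' (Nat.dvd_one.mp this)
  let u : (ZMod w)ˣ := Units.mk0 (t : ZMod w) htw
  have hodd : Odd (orderOf u) := by
    by_contra hev
    rw [Nat.not_odd_iff_even] at hev
    obtain ⟨s, hs⟩ := hev
    have hpos := orderOf_pos u
    have h1 : (u ^ s) ^ 2 = 1 := by
      rw [← pow_mul, mul_comm, two_mul, ← hs]; exact pow_orderOf_eq_one u
    have h2 : u ^ s ≠ 1 := by
      intro h
      have := orderOf_le_of_pow_eq_one (by omega) h
      omega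
    have h3 : ((u ^ s : (ZMod w)ˣ) : ZMod w) = -1 := by
      have h4 : (((u ^ s : (ZMod w)ˣ) : ZMod w)) ^ 2 = 1 := by
        rw [← Units.val_pow_eq_pow_val, h1]; rfl
      have h6 : (((u ^ s : (ZMod w)ˣ) : ZMod w) - 1) * (((u ^ s : (ZMod w)ˣ) : ZMod w) + 1) = 0 := by
        linear_combination h4
      rcases mul_eq_zero.mp h6 with h5 | h5
      · exact absurd (Units.ext (sub_eq_zero.mp h5)) h2
      · exact eq_neg_of_add_eq_zero_left h5
    have h5 : w ∣ t ^ s + 1 := by
      rw [← ZMod.natCast_eq_zero_iff]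
      push_cast
      have : ((u ^ s : (ZMod w)ˣ) : ZMod w) = (t : ZMod w) ^ s := by
        rw [Units.val_pow_eq_pow_val]; rfl
      rw [← this, h3]; ring
    exact hns (hP.isSquare_of_neg_one hw hwv (ht.pow s) (Nat.Coprime.pow_left s htc) h5)
  obtain ⟨s, hs⟩ := hodd
  refine ⟨(t : ZMod w) ^ (s + 1), ?_⟩
  have h1 : u ^ (2 * s + 1) = 1 := by rw [← hs]; exact pow_orderOf_eq_one u
  have h2 : (t : ZMod w) ^ (2 * s + 1) = 1 := by
    have := congrArg (Units.val) h1
    rw [Units.val_pow_eq_pow_val] at this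
    exact this
  rw [← pow_add]
  have : s + 1 + (s + 1) = (2 * s + 1) + 1 := by ring
  rw [this, pow_succ, h2, one_mul]

theorem Planar.jacobi_ne (hP : Planar n D) (hns : ¬ IsSquare n) {t : ℕ} (ht : Fixes t D)
    (htc : Nat.Coprime t (Fintype.card G)) : jacobiSym t (n ^ 2 + n + 1) ≠ -1 := by
  intro h
  obtain ⟨w, hw, hwv, hj⟩ := jacobiSym.eq_neg_one_at_prime_divisor_of_eq_neg_one h
  have hF : Fact w.Prime := ⟨hw⟩
  have h1 := ZMod.nonsquare_of_jacobiSym_eq_neg_one hj
  apply h1
  have := hP.isSquare_mod hns hw hwv ht htc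
  simpa using this

lemma odd_v (n : ℕ) : Odd (n ^ 2 + n + 1) := by
  have : Even (n ^ 2 + n) := by
    rw [show n ^ 2 + n = n * (n + 1) by ring]
    exact Nat.even_mul_succ_self n
  exact this.add_one

/-- residues modulo four for nonsquare order -/
theorem Planar.mod_four (hP : Planar n D) (hns : ¬ IsSquare n) (h7 : Fixes 7 D)
    (hc : Nat.Coprime 7 (Fintype.card G)) (hodd : n % 2 = 1) :
    (n % 7 = 1 ∨ n % 7 = 3 → n % 4 = 1) ∧ (n % 7 = 6 → n % 4 = 3) := by
  have hj := hP.jacobi_ne hns h7 hc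
  have hv := odd_v n
  have h4 : n % 4 < 4 := Nat.mod_lt _ (by norm_num)
  have hv4 : ∀ r, n % 4 = r → (n ^ 2 + n + 1) % 4 = (r ^ 2 + r + 1) % 4 := by
    intro r hr
    subst hr
    simp [Nat.add_mod, Nat.pow_mod]
  have hv7 : ∀ r, n % 7 = r → (n ^ 2 + n + 1) % 7 = (r ^ 2 + r + 1) % 7 := by
    intro r hr
    subst hr
    simp [Nat.add_mod, Nat.pow_mod]
  have hmodl : jacobiSym ((n ^ 2 + n + 1 : ℕ) : ℤ) 7
      = jacobiSym (((n ^ 2 + n + 1) % 7 : ℕ) : ℤ) 7 := by
    rw [jacobiSym.mod_left]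
    congr 1
  constructor
  · intro h
    by_contra h1
    have h3 : n % 4 = 3 := by omega
    have hv1 : (n ^ 2 + n + 1) % 4 = 1 := by rw [hv4 3 h3]; norm_num
    apply hj
    have e := jacobiSym.quadratic_reciprocity_one_mod_four' (a := 7) (b := n ^ 2 + n + 1)
      (by decide) hv1
    change jacobiSym ((7 : ℕ) : ℤ) _ = -1
    rw [e, hmodl]
    rcases h with h | h
    · rw [hv7 1 h]; norm_num
    · rw [hv7 3 h]; norm_num
  · intro h
    by_contra h1
    have h3 : n % 4 = 1 := by omega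
    have hv1 : (n ^ 2 + n + 1) % 4 = 3 := by rw [hv4 1 h3]; norm_num
    apply hj
    have e := jacobiSym.quadratic_reciprocity_three_mod_four (a := 7) (b := n ^ 2 + n + 1)
      (by norm_num) hv1
    change jacobiSym ((7 : ℕ) : ℤ) _ = -1
    rw [e, hmodl, hv7 6 h]
    norm_num

/-- prime divisors in the case one modulo four -/
theorem Planar.prime_mod_four (hP : Planar n D) (hn : 2 ≤ n) (h0 : ∑ x ∈ D, x = 0)
    (hns : ¬ IsSquare n) (h4 : n % 4 = 1) {p : ℕ} (hp : p.Prime) (hpn : p ∣ n) : p % 4 = 1 := by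
  have hf : Fixes p D := hP.fixes_of_dvd hn h0 p hp.pos.ne' hpn
  have hc : Nat.Coprime p (Fintype.card G) := Nat.Coprime.coprime_dvd_left hpn hP.coprime_n
  have hj := hP.jacobi_ne hns hf hc
  have hodd : p % 2 = 1 := by
    rcases hp.eq_two_or_odd with h | h
    · exfalso; subst h; omega
    · exact h
  by_contra h1
  have h3 : p % 4 = 3 := by omega
  have hv1 : (n ^ 2 + n + 1) % 4 = 3 := by
    have : (n ^ 2 + n + 1) % 4 = ((n % 4) ^ 2 + n % 4 + 1) % 4 := by
      simp [Nat.add_mod, Nat.pow_mod]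
    rw [this, h4]; norm_num
  apply hj
  have e := jacobiSym.quadratic_reciprocity_three_mod_four (a := p) (b := n ^ 2 + n + 1) h3 hv1
  rw [e]
  have hmodl : jacobiSym ((n ^ 2 + n + 1 : ℕ) : ℤ) p = jacobiSym 1 p := by
    apply jacobiSym.mod_left'
    obtain ⟨k, hk⟩ := hpn
    have : ((n ^ 2 + n + 1 : ℕ) : ℤ) = 1 + p * (k * n + k) := by
      have : n ^ 2 + n + 1 = 1 + p * (k * n + k) := by
        rw [sq]; nth_rewrite 1 [hk]; nth_rewrite 2 [hk]; ring
      exact_mod_cast this
    rw [this, Int.add_mul_emod_self_left]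
  rw [hmodl, jacobiSym.one_left]

end Pool.Agent.helper53.PDS
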