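import Pool.Agent.helper53.PDS7

set_option autoImplicit false
set_option linter.unusedSectionVars false

namespace Pool.Agent.helper53.PDS

open Finset

universe u

lemma card_torsion {G : Type*} [AddCommGroup G] [Finite G] {a b : ℕ} (hab : Nat.Coprime a b)
    (hG : Nat.card G = a * b) : Nat.card (nsmulAddMonoidHom (α := G) a).ker = a := by
  set f := nsmulAddMonoidHom (α := G) a with hf
  have h1 : Nat.card f.ker * Nat.card f.range = a * b := by
    rw [← hG, ← AddSubgroup.card_mul_index f.ker, AddSubgroup.index_ker]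
  have hk : Nat.Coprime (Nat.card f.ker) b := by
    rw [Nat.coprime_iff_gcd_eq_one]
    by_contra hne
    obtain ⟨p, hp, hpd⟩ := Nat.exists_prime_and_dvd hne
    have hF : Fact p.Prime := ⟨hp⟩
    obtain ⟨x, hx⟩ := exists_prime_addOrderOf_dvd_card' (G := f.ker) p
      (dvd_trans hpd (Nat.gcd_dvd_left _ _))
    have h2 : a • (x : G) = 0 := x.2
    have h3 : a • x = 0 := by
      apply Subtype.ext; simpa using h2
    have h4 : p ∣ a := by rw [← hx]; exact addOrderOf_dvd_of_nsmul_eq_zero h3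
    have h5 : p ∣ Nat.gcd a b := Nat.dvd_gcd h4 (dvd_trans hpd (Nat.gcd_dvd_right _ _))
    rw [hab.gcd_eq_one] at h5
    exact hp.one_lt.ne' (Nat.dvd_one.mp h5)
  have hr : Nat.Coprime (Nat.card f.range) a := by
    rw [Nat.coprime_iff_gcd_eq_one]
    by_contra hne
    obtain ⟨p, hp, hpd⟩ := Nat.exists_prime_and_dvd hne
    have hF : Fact p.Prime := ⟨hp⟩
    obtain ⟨y, hy⟩ := exists_prime_addOrderOf_dvd_card' (G := f.range) p
      (dvd_trans hpd (Nat.gcd_dvd_left _ _))
    obtain ⟨z, hz⟩ := y.2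
    have h2 : b • (y : G) = 0 := by
      rw [← hz, hf]
      change b • (a • z) = 0
      rw [← mul_nsmul, ← hG]
      exact card_nsmul_eq_zero'
    have h3 : b • y = 0 := by
      apply Subtype.ext; simpa using h2
    have h4 : p ∣ b := by rw [← hy]; exact addOrderOf_dvd_of_nsmul_eq_zero h3
    have h5 : p ∣ Nat.gcd a b := Nat.dvd_gcd (dvd_trans hpd (Nat.gcd_dvd_right _ _)) h4
    rw [hab.gcd_eq_one] at h5
    exact hp.one_lt.ne' (Nat.dvd_one.mp h5)
  have d1 : Nat.card f.ker ∣ a := hk.dvd_of_dvd_mul_right (by rw [← h1]; exact dvd_mul_right _ _)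
  have d2 : a ∣ Nat.card f.ker := hr.symm.dvd_of_dvd_mul_right (by rw [h1]; exact dvd_mul_right _ _)
  exact Nat.dvd_antisymm d1 d2

lemma coprime_quad {m : ℕ} (hm : 1 ≤ m) : Nat.Coprime (m ^ 2 + m + 1) (m ^ 2 - m + 1) := by
  obtain ⟨k, rfl⟩ : ∃ k, m = k + 1 := ⟨m - 1, by omega⟩
  have e : (k + 1) ^ 2 - (k + 1) + 1 = k ^ 2 + k + 1 := by
    have : (k + 1) ^ 2 = k ^ 2 + k + (k + 1) := by ring
    omega
  rw [e]
  rw [Nat.coprime_iff_gcd_eq_one]
  by_contra hne
  obtain ⟨p, hp, hpd⟩ := Nat.exists_prime_and_dvd hne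
  have h1 : p ∣ (k + 1) ^ 2 + (k + 1) + 1 := dvd_trans hpd (Nat.gcd_dvd_left _ _)
  have h2 : p ∣ k ^ 2 + k + 1 := dvd_trans hpd (Nat.gcd_dvd_right _ _)
  have h3 : p ∣ 2 * (k + 1) := by
    have : (k + 1) ^ 2 + (k + 1) + 1 = (k ^ 2 + k + 1) + 2 * (k + 1) := by ring
    rw [this] at h1
    exact (Nat.dvd_add_right h2).mp h1
  rcases (Nat.Prime.dvd_mul hp).mp h3 with h4 | h4
  · have : p = 2 := (Nat.prime_dvd_prime_iff_eq hp Nat.prime_two).mp h4
    subst this
    exact not_two_dvd k h2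
  · have h5 : p ∣ k * (k + 1) := dvd_mul_of_dvd_right h4 k
    have h6 : k ^ 2 + k + 1 = k * (k + 1) + 1 := by ring
    rw [h6] at h2
    have := (Nat.dvd_add_right h5).mp h2
    exact hp.one_lt.ne' (Nat.dvd_one.mp this)

variable {G : Type u} [AddCommGroup G] [Fintype G] [DecidableEq G] {n : ℕ} {D : Finset G}

/-- the Baer descent -/
theorem Planar.baer {m : ℕ} (hP : Planar (m ^ 2) D) (hm : 2 ≤ m) (h0 : ∑ x ∈ D, x = 0) :
    ∃ (H : AddSubgroup G) (E : Finset H) (_ : Fintype H), Nat.card H = m ^ 2 + m + 1 ∧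
      Planar m E ∧ ∀ x : H, x ∈ E ↔ (x : G) ∈ D := by
  classical
  have hmn : Fixes (m ^ 3) D := by
    have : Fixes m D := hP.fixes_of_dvd (by nlinarith) h0 m (by omega) (dvd_pow_self m (by norm_num))
    exact this.pow 3
  set H := (nsmulAddMonoidHom (α := G) (m ^ 2 + m + 1)).ker with hH
  have hcardG : Nat.card G = (m ^ 2 + m + 1) * (m ^ 2 - m + 1) := by
    rw [Nat.card_eq_fintype_card, hP.cardG]
    obtain ⟨k, rfl⟩ : ∃ k, m = k + 1 := ⟨m - 1, by omega⟩
    have e : (k + 1) ^ 2 - (k + 1) + 1 = k ^ 2 + k + 1 := by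
      have : (k + 1) ^ 2 = k ^ 2 + k + (k + 1) := by ring
      omega
    rw [e]; ring
  have hcH : Nat.card H = m ^ 2 + m + 1 := card_torsion (coprime_quad (by omega)) hcardG
  have hmem : ∀ x : G, x ∈ H ↔ (m ^ 2 + m + 1) • x = 0 := fun x => Iff.rfl
  -- elements of H are the fixed points of m ^ 3
  have hfixH : ∀ x : G, x ∈ H ↔ (m ^ 3) • x = x := by
    intro x
    obtain ⟨k, rfl⟩ : ∃ k, m = k + 1 := ⟨m - 1, by omega⟩
    have e3 : (k + 1) ^ 3 = k * ((k + 1) ^ 2 + (k + 1) + 1) + 1 := by ring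
    rw [hmem]
    constructor
    · intro h
      rw [e3, add_nsmul, mul_nsmul', h, nsmul_zero, zero_add, one_nsmul]
    · intro h
      rw [e3, add_nsmul, one_nsmul] at h
      have h1 : (k * ((k + 1) ^ 2 + (k + 1) + 1)) • x = 0 := add_eq_right.mp h
      have h2 : (Nat.card G) • x = 0 := card_nsmul_eq_zero'
      rw [hcardG] at h2
      have o1 := addOrderOf_dvd_of_nsmul_eq_zero h1
      have o2 := addOrderOf_dvd_of_nsmul_eq_zero h2
      apply addOrderOf_dvd_iff_nsmul_eq_zero.mp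
      -- gcd argument
      have hc : Nat.Coprime k ((k + 1) ^ 2 - (k + 1) + 1) := by
        have : (k + 1) ^ 2 - (k + 1) + 1 = k * (k + 1) + 1 := by
          have : (k + 1) ^ 2 = k * (k + 1) + (k + 1) := by ring
          omega
        rw [this]; simp
      have : Nat.gcd (k * ((k + 1) ^ 2 + (k + 1) + 1))
          (((k + 1) ^ 2 + (k + 1) + 1) * ((k + 1) ^ 2 - (k + 1) + 1))
          = (k + 1) ^ 2 + (k + 1) + 1 := by
        rw [mul_comm k, Nat.gcd_mul_left, hc.gcd_eq_one, mul_one]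
      rw [← this]
      exact Nat.dvd_gcd o1 o2
  have hfinH : Fintype H := Fintype.ofFinite _
  set E : Finset H := Finset.univ.filter (fun x : H => (x : G) ∈ D) with hE
  have hEmem : ∀ x : H, x ∈ E ↔ (x : G) ∈ D := by
    intro x
    rw [hE, Finset.mem_filter]
    exact ⟨fun h => h.2, fun h => ⟨Finset.mem_univ _, h⟩⟩
  have huniq : ∀ x : H, x ≠ 0 → ∃! p : H × H, p.1 ∈ E ∧ p.2 ∈ E ∧ p.1 - p.2 = x := by
    intro x hx
    have hx0 : (x : G) ≠ 0 := fun h => hx (Subtype.ext h)
    obtain ⟨p, ⟨h1, h2, h3⟩, hp⟩ := hP.uniq (x : G) hx0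
    have h4 := hp ((m ^ 3) • p.1, (m ^ 3) • p.2) ⟨hmn _ h1, hmn _ h2, by
      simp only
      rw [← nsmul_sub, h3]
      exact (hfixH _).mp x.2⟩
    have h5 : (m ^ 3) • p.1 = p.1 := congrArg Prod.fst h4
    have h6 : (m ^ 3) • p.2 = p.2 := congrArg Prod.snd h4
    refine ⟨(⟨p.1, (hfixH _).mpr h5⟩, ⟨p.2, (hfixH _).mpr h6⟩), ⟨?_, ?_, ?_⟩, ?_⟩
    · rw [hEmem]; exact h1
    · rw [hEmem]; exact h2
    · apply Subtype.ext; exact h3
    · rintro ⟨a, b⟩ ⟨ha, hb, hab⟩
      have h7 := hp ((a : G), (b : G)) ⟨(hEmem a).mp ha, (hEmem b).mp hb, by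
        simp only
        rw [← hab]; rfl⟩
      ext
      · exact congrArg Prod.fst h7
      · exact congrArg Prod.snd h7
  refine ⟨H, E, hfinH, hcH, ⟨?_, ?_, huniq⟩, hEmem⟩
  · rw [← Nat.card_eq_fintype_card]; exact hcH
  · -- count differences
    have hcard : E.offDiag.card = (Finset.univ.erase (0 : H)).card := by
      refine Finset.card_bij (fun p _ => p.1 - p.2) ?_ ?_ ?_
      · intro p hp
        rw [Finset.mem_offDiag] at hp
        rw [Finset.mem_erase]
        exact ⟨sub_ne_zero.mpr hp.2.2, Finset.mem_univ _⟩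
      · intro p hp q hq e
        rw [Finset.mem_offDiag] at hp hq
        obtain ⟨r, _, hr⟩ := huniq (p.1 - p.2) (sub_ne_zero.mpr hp.2.2)
        rw [hr p ⟨hp.1, hp.2.1, rfl⟩, hr q ⟨hq.1, hq.2.1, e.symm⟩]
      · intro x hx
        rw [Finset.mem_erase] at hx
        obtain ⟨r, ⟨h1, h2, h3⟩, _⟩ := huniq x hx.1
        refine ⟨r, ?_, h3⟩
        rw [Finset.mem_offDiag]
        refine ⟨h1, h2, ?_⟩
        intro h
        rw [h, sub_self] at h3
        exact hx.1 h3.symm
    rw [Finset.offDiag_card, Finset.card_erase_of_mem (Finset.mem_univ _), Finset.card_univ,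
      ← Nat.card_eq_fintype_card, hcH] at hcard
    have h1 : E.card * E.card - E.card = m * m + m := by
      rw [hcard]
      have : m ^ 2 = m * m := sq m
      omega
    have h2 : E.card ≤ E.card * E.card := Nat.le_mul_self _
    have h3 : E.card * E.card = m * m + m + E.card := by omega
    have h4 : ((E.card : ℤ) - (m + 1)) * ((E.card : ℤ) + m) = 0 := by
      have : (E.card : ℤ) * E.card = m * m + m + E.card := by exact_mod_cast h3
      linear_combination this
    rcases mul_eq_zero.mp h4 with h5 | h5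
    · have : (E.card : ℤ) = m + 1 := by linarith
      exact_mod_cast this
    · exfalso
      have : (0 : ℤ) ≤ E.card := Nat.cast_nonneg _
      have hm' : (2 : ℤ) ≤ m := by exact_mod_cast hm
      linarith

/-- the conclusion of the main theorem -/
def Good (n : ℕ) : Prop :=
  ∃ m j : ℕ, n = m ^ (2 ^ j) ∧ 2 ≤ m ∧ ¬ IsSquare m ∧
    (∃ (H : Type u) (_ : AddCommGroup H) (_ : Fintype H) (_ : DecidableEq H) (E : Finset H),
      Fintype.card H = m ^ 2 + m + 1 ∧ E.card = m + 1 ∧
      (∀ x : H, x ≠ 0 → ∃! p : H × H, p.1 ∈ E ∧ p.2 ∈ E ∧ p.1 - p.2 = x) ∧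
      Nat.Coprime 7 (Fintype.card H) ∧
      (∃ g : H, E.image (fun x => (7 : ℕ) • x) = E.image (fun x => x + g)) ∧ ¬ 7 ∣ m) ∧
    (m % 28 = 1 ∨ m % 84 = 73 ∨ m % 84 = 83) ∧
    Nat.Coprime m (2 * 3 * 5 * 13 * 19 * 43 * 97 * 337 * 1201 * 2801) ∧
    (m % 4 = 1 → ∀ p : ℕ, p.Prime → p ∣ m → p % 4 = 1) ∧
    (∀ w : ℕ, w.Prime → w ∣ m ^ 2 + m + 1 → IsSquare (7 : ZMod w))

theorem main : ∀ (n : ℕ) (G : Type u) [AddCommGroup G] [Fintype G] [DecidableEq G]
    (D : Finset G), Planar n D → 2 ≤ n → Nat.Coprime 7 (Fintype.card G) →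
    (∃ g, D.image (fun x => (7 : ℕ) • x) = PDS.trans D g) → ¬ 7 ∣ n → Good.{u} n := by
  intro n
  induction n using Nat.strong_induction_on with
  | _ n ih =>
    intro G _ _ _ D0 hP0 hn hc ⟨g0, hg0⟩ h7n
    obtain ⟨h, h0⟩ := hP0.exists_normal
    have hP := hP0.trans h
    have h7 : Fixes 7 (PDS.trans D0 h) := hP.fixes_of_mult h0 hc (mult_trans hg0)
    generalize PDS.trans D0 h = D at *
    by_cases hs : IsSquare n
    · obtain ⟨m, hm⟩ := hs
      have hmm : n = m ^ 2 := by rw [hm, sq]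
      subst hmm
      have hm2 : 2 ≤ m := by nlinarith
      obtain ⟨H, E, hfin, hcH, hPE, hEm⟩ := hP.baer hm2 h0
      classical
      have hcH' : Nat.Coprime 7 (Fintype.card H) := by
        apply Nat.Coprime.coprime_dvd_right _ hc
        rw [← Nat.card_eq_fintype_card, ← Nat.card_eq_fintype_card]
        exact AddSubgroup.card_addSubgroup_dvd_card H
      have h7E : Fixes 7 E := by
        intro x hx
        rw [hEm] at hx ⊢
        have := h7 _ hx
        simpa using this
      have hres := ih m (by nlinarith) H E hPE hm2 hcH' ⟨0, by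
        rw [h7E.image_eq hcH']
        ext x
        rw [mem_trans, sub_zero]⟩ (by
          intro h
          exact h7n (dvd_pow h (by norm_num)))
      obtain ⟨m', j, e, hrest⟩ := hres
      refine ⟨m', j + 1, ?_, hrest⟩
      rw [e, ← pow_mul, ← pow_succ]
    · refine ⟨n, 0, by simp, hn, hs, ?_, ?_, hP.excluded hn h0 h7 hc, ?_, ?_⟩
      · refine ⟨G, inferInstance, inferInstance, inferInstance, D0, hP0.cardG, hP0.cardD, hP0.uniq,
          hc, ⟨g0, ?_⟩, h7n⟩
        exact hg0
      · have hcop := hP.excluded hn h0 h7 hc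
        have hodd : n % 2 = 1 := by
          have h2 : Nat.Coprime n 2 := Nat.Coprime.coprime_dvd_right (by norm_num) hcop
          rcases Nat.mod_two_eq_zero_or_one n with h | h
          · exfalso
            have := Nat.dvd_gcd (Nat.dvd_of_mod_eq_zero h) (dvd_refl 2)
            rw [h2.gcd_eq_one] at this
            norm_num at this
          · exact h
        obtain ⟨q1, q2⟩ := hP.mod_four hs h7 hc hodd
        have hf : Fixes n D := hP.fixes_of_dvd hn h0 n (by omega) (dvd_refl n)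
        rcases hP.residues hf h7 hc h7n with r | r | r
        · left
          have := q1 (Or.inl r)
          omega
        · right; left
          have := q1 (Or.inr (by omega))
          omega
        · right; right
          have := q2 (by omega)
          omega
      · intro h4 p hp hpn
        exact hP.prime_mod_four hn h0 hs h4 hp hpn
      · intro w hw hwv
        have := hP.isSquare_mod hs hw hwv h7 hc
        simpa using this

end Pool.Agent.helper53.PDS
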